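import Mathlib

set_option autoImplicit false

namespace Pool.Agent.H.MP_43f46b_al

open Finset Function

/-- vertex of a box -/
def vtx {V : ℕ → Type} (X0 X1 : ∀ i, V i) (ε : ℕ → Bool) : ∀ i, V i :=
  fun i => bif ε i then X1 i else X0 i

theorem box {V : ℕ → Type} [∀ i, Fintype (V i)] {U K : Type} [Fintype K]
    (e : (∀ i, V i) → U → K) (S : ℕ → Finset U) (hS : Monotone S) (m : ℕ)
    (hc : ∀ i < m, Fintype.card K ^ ((S i).card * Nat.card (∀ j : Fin i, V j)) <
      Fintype.card (V i)) (X : ∀ i, V i) :
    ∃ X0 X1 : ∀ i, V i, (∀ i, m ≤ i → X0 i = X i ∧ X1 i = X i) ∧ (∀ i < m, X0 i ≠ X1 i) ∧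
      ∀ i < m, ∀ ε : ℕ → Bool, ∀ u ∈ S i,
        e (vtx X0 X1 (update ε i true)) u = e (vtx X0 X1 (update ε i false)) u := by
  classical
  induction m generalizing X with
  | zero => exact ⟨X, X, by simp, by simp, by simp⟩
  | succ m ih =>
    obtain ⟨x0, x1, hx, he⟩ := Fintype.exists_ne_map_eq_of_card_lt
      (fun (x : V m) (L : ∀ j : Fin m, V j) (u : S m) =>
        e (fun i => if h : i < m then L ⟨i, h⟩ else update X m x i) u) (by
      have := hc m (by omega)
      rw [Nat.card_eq_fintype_card] at this
      simpa [pow_mul] using this)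
    have f : ∀ Y : ∀ i, V i, (∀ i, m < i → Y i = X i) → ∀ u ∈ S m,
        e (update Y m x0) u = e (update Y m x1) u := fun Y hY u hu => by
      have a : ∀ x, update Y m x =
          fun i => if h : i < m then Y (⟨i, h⟩ : Fin m) else update X m x i := fun x => by
        ext i
        rcases lt_trichotomy i m with h | rfl | h
        · simp [h, h.ne]
        · simp
        · simp [h.ne', h.le.not_gt, hY i h]
      rw [a, a]
      exact congrFun (congrFun he fun j => Y j) ⟨u, hu⟩
    obtain ⟨X0, X1, k1, k2, k3⟩ := ih (fun i hi => hc i (by omega)) (update X m x0)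
    have g : ∀ ε, ∀ u ∈ S m, e (vtx X0 (update X1 m x1) ε) u = e (update (vtx X0 X1 ε) m x0) u :=
      fun ε u hu => by
      have a : vtx X0 (update X1 m x1) ε = update (vtx X0 X1 ε) m (bif ε m then x1 else x0) := by
        ext i
        by_cases h : i = m
        · subst h; simp [vtx, (k1 i le_rfl).1]
        · simp [vtx, h]
      rw [a]
      cases ε m
      · rfl
      · exact (f _ (fun i hi => by simp [vtx, k1 i hi.le, hi.ne']) u hu).symm
    have g' : ∀ ε, update (vtx X0 X1 ε) m x0 = vtx X0 X1 ε := fun ε => by
      rw [update_eq_self_iff]; simp [vtx, k1 m le_rfl]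
    refine ⟨X0, update X1 m x1, fun i hi => ?_, fun i hi => ?_, fun i hi ε u hu => ?_⟩
    · have : i ≠ m := by omega
      simpa [this] using k1 i (by omega)
    · rcases Nat.lt_succ_iff_lt_or_eq.1 hi with hi | rfl
      · simpa [hi.ne] using k2 i hi
      · simpa [(k1 i le_rfl).1] using hx
    · rw [g _ u (hS (by omega) hu), g _ u (hS (by omega) hu)]
      rcases Nat.lt_succ_iff_lt_or_eq.1 hi with hi | rfl
      · rw [g', g']; exact k3 i hi ε u hu
      · congr 1
        ext j
        by_cases h : j = i
        · subst h; simp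
        · simp [vtx, h]

/-- iterated difference on the cube -/
def DD {A : Type} [AddCommGroup A] : ℕ → ((ℕ → Bool) → A) → (ℕ → Bool) → A
  | 0, f, ε => f ε
  | m + 1, f, ε => DD m f (update ε m true) - DD m f (update ε m false)

variable {k A : Type} [Field k] [Ring A] [Algebra k A]

lemma DD_mem (J : Submodule k A) (m : ℕ) (f : (ℕ → Bool) → A) (h : ∀ ε, f ε ∈ J) :
    ∀ ε, DD m f ε ∈ J := by
  induction m with
  | zero => exact h
  | succ m ih => exact fun ε => sub_mem (ih _) (ih _)

lemma DD_sum {U : Type} (T : Finset U) (m : ℕ) (f : (ℕ → Bool) → A) (g : U → (ℕ → Bool) → A) :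
    ∀ ε, DD m (fun ε => f ε - ∑ u ∈ T, g u ε) ε = DD m f ε - ∑ u ∈ T, DD m (g u) ε := by
  induction m with
  | zero => exact fun _ => rfl
  | succ m ih => intro ε; simp only [DD, ih, sum_sub_distrib]; abel

lemma DD_zero (m i : ℕ) (hi : i < m) (f : (ℕ → Bool) → A)
    (h : ∀ ε, f (update ε i true) = f (update ε i false)) : ∀ ε, DD m f ε = 0 := by
  have a : ∀ m ≤ i, ∀ ε, DD m f (update ε i true) = DD m f (update ε i false) := by
    intro m
    induction m with
    | zero => exact fun _ => h
    | succ m ih =>
      intro hm ε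
      have : i ≠ m := by omega
      simp only [DD, update_comm this, ih (by omega)]
  induction m with
  | zero => omega
  | succ m ih =>
    intro ε
    rcases Nat.lt_succ_iff_lt_or_eq.1 hi with hi | rfl
    · simp [DD, ih hi]
    · simp [DD, a i le_rfl]

lemma DD_smul (m : ℕ) (c : (ℕ → Bool) → k) (f : (ℕ → Bool) → A)
    (h : ∀ i < m, ∀ ε, c (update ε i true) = c (update ε i false)) :
    ∀ ε, DD m (fun ε => c ε • f ε) ε = c ε • DD m f ε := by
  induction m with
  | zero => exact fun _ => rfl
  | succ m ih =>
    intro ε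
    have a : c (update ε m false) = c ε := by
      cases e : ε m
      · rw [← e, update_eq_self]
      · rw [← h m (by omega), ← e, update_eq_self]
    simp only [DD, ih fun i hi => h i (by omega), h m (by omega), a, smul_sub]

lemma DD_prod (m : ℕ) (x : ℕ → Bool → A) (l : List ℕ) (h : ∀ i < m, l.count i = 1) :
    ∀ ε, DD m (fun ε => (l.map fun i => x i (ε i)).prod) ε =
      (l.map fun i => if i < m then x i true - x i false else x i (ε i)).prod := by
  induction m with
  | zero => intro ε; simp [DD]
  | succ m ih =>
    intro ε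
    have h1 := h m (by omega)
    obtain ⟨l1, l2, rfl⟩ := List.append_of_mem (List.count_pos_iff.1 (h1 ▸ one_pos))
    simp only [List.count_append, List.count_cons_self] at h1
    have a : ∀ (l : List ℕ) (b : Bool), l.count m = 0 →
        (l.map fun i => if i < m then x i true - x i false else x i (update ε m b i)) =
        l.map fun i => if i < m + 1 then x i true - x i false else x i (ε i) := fun l b hl =>
      List.map_congr_left fun i hi => by
        have : i ≠ m := by rintro rfl; exact List.count_eq_zero.1 hl hi
        have e : i < m + 1 ↔ i < m := by omega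
        simp [this, e]
    simp only [DD, ih fun i hi => h i (by omega)]
    simp only [List.map_append, List.map_cons, a l1 _ (by omega), a l2 _ (by omega)]
    simp [mul_sub, sub_mul]

end Pool.Agent.H.MP_43f46b_al
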