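import Pool.Agent.H.MP_43f46b_al.N
import Pool.Agent.H.MP_43f46b_al.B

set_option autoImplicit false
set_option linter.unusedSectionVars false

namespace Pool.Agent.H.MP_43f46b_al

open Finset

variable {k A : Type} [Field k] [Ring A] [Algebra k A]

/-- a filtration -/
def Fl (J : ℕ → Submodule k A) : Prop :=
  J 0 = ⊤ ∧ Antitone J ∧ ∀ a b x y, x ∈ J a → y ∈ J b → x * y ∈ J (a + b)

/-- evaluation of words -/
def ev {β : Type} (y : β → A) (w : List β) : A := (w.map y).prod

lemma ev_app {β : Type} (y : β → A) (u v : List β) : ev y (u ++ v) = ev y u * ev y v := by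
  simp [ev]

lemma ev_cons {β : Type} (y : β → A) (b : β) (v : List β) : ev y (b :: v) = y b * ev y v := by
  simp [ev]

variable {J : ℕ → Submodule k A}

lemma ev_mem (hJ : Fl J) {β : Type} {y : β → A} (dg : β → ℕ) (h : ∀ b, y b ∈ J (dg b))
    (w : List β) : ev y w ∈ J (w.map dg).sum := by
  induction w with
  | nil => simp [hJ.1]
  | cons b w ih => rw [ev_cons]; exact hJ.2.2 _ _ _ _ (h b) ih

variable {α : Type} [Fintype α] {y : α → A}

/-- span of selected words modulo higher degree -/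
def Sp (J : ℕ → Submodule k A) (y : α → A) (n : ℕ) (R : List α → Prop) : Submodule k A :=
  Submodule.span k (ev y '' {w | w.length = n ∧ R w}) ⊔ J (n + 1)

lemma sp_mono {n : ℕ} {R R' : List α → Prop} (h : ∀ w, w.length = n → R w → R' w) :
    Sp J y n R ≤ Sp J y n R' :=
  sup_le_sup_right (Submodule.span_mono (Set.image_mono fun w (hw : _ ∧ _) =>
    And.intro hw.1 (h w hw.1 hw.2))) _

lemma sp_le (hJ : Fl J) (hy : ∀ a, y a ∈ J 1) (n : ℕ) (R : List α → Prop) : Sp J y n R ≤ J n :=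
  sup_le (Submodule.span_le.2 (by
    rintro _ ⟨w, ⟨rfl, -⟩, rfl⟩
    simpa using ev_mem hJ (fun _ => 1) hy w)) (hJ.2.1 (Nat.le_succ n))

lemma sp_mul (hJ : Fl J) (hy : ∀ a, y a ∈ J 1) {a b : ℕ} {R R' R'' : List α → Prop}
    (h : ∀ w w', w.length = a → R w → R' w' → R'' (w ++ w')) {x x' : A}
    (hx : x ∈ Sp J y a R) (hx' : x' ∈ Sp J y b R') : x * x' ∈ Sp J y (a + b) R'' := by
  obtain ⟨x1, h1, x2, h2, rfl⟩ := Submodule.mem_sup.1 hx
  rw [add_mul]
  refine add_mem ?_ (Submodule.mem_sup_right ?_)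
  · obtain ⟨x3, h3, x4, h4, rfl⟩ := Submodule.mem_sup.1 hx'
    rw [mul_add]
    refine Submodule.add_mem_sup ?_
      (hJ.2.2 a (b + 1) _ _ (sp_le hJ hy a R (Submodule.mem_sup_left h1)) h4)
    have := Submodule.mul_mem_mul h1 h3
    rw [Submodule.span_mul_span] at this
    refine Submodule.span_mono ?_ this
    rintro _ ⟨_, ⟨w, hw, rfl⟩, _, ⟨w', hw', rfl⟩, rfl⟩
    exact ⟨w ++ w', ⟨by simp [hw.1, hw'.1], h w w' hw.1 hw.2 hw'.2⟩, ev_app _ _ _⟩
  · rw [add_right_comm]; exact hJ.2.2 _ _ _ _ h2 (sp_le hJ hy b R' hx')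

/-- strictly bigger words -/
abbrev Bg (J : ℕ → Submodule k A) (y : α → A) (z : List α) : Submodule k A :=
  Sp J y z.length fun w => psi z < psi w

/-- weakly bigger words -/
abbrev Ge (J : ℕ → Submodule k A) (y : α → A) (z : List α) : Submodule k A :=
  Sp J y z.length fun w => psi z ≤ psi w

lemma ev_ge (z : List α) : ev y z ∈ Ge J y z :=
  Submodule.mem_sup_left (Submodule.subset_span ⟨z, ⟨rfl, le_rfl⟩, rfl⟩)

lemma ld_ge {x : A} {z : List α} {c : k} (h : x - c • ev y z ∈ Bg J y z) : x ∈ Ge J y z := by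
  simpa using add_mem (sp_mono (fun _ _ => le_of_lt) h) (Submodule.smul_mem _ c (ev_ge z))

lemma ge_bg {z z' : List α} (h : z'.length = z.length) (h' : psi z < psi z') :
    Ge J y z' ≤ Bg J y z := by
  rw [Ge, h]; exact sp_mono fun _ _ k => h'.trans_le k

lemma ld_mul (hJ : Fl J) (hy : ∀ a, y a ∈ J 1) {x x' : A} {u v : List α} {c c' : k}
    (h : x - c • ev y u ∈ Bg J y u) (h' : x' - c' • ev y v ∈ Bg J y v) :
    x * x' - (c * c') • ev y (u ++ v) ∈ Bg J y (u ++ v) := by
  rw [Bg, List.length_append]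
  convert add_mem (sp_mul hJ hy ?_ h (ld_ge h'))
    (Submodule.smul_mem _ c (sp_mul hJ hy ?_ (ev_ge u) h')) using 1
  · simp [ev_app, sub_mul, mul_sub, smul_sub, mul_smul]
  all_goals
    intro w w' e h1 h2
    rw [psi_app, psi_app, e]
  · exact add_lt_add_of_lt_of_le h1 (div_le_div_of_nonneg_right h2 (pow_pos bs0 _).le)
  · exact add_lt_add_of_le_of_lt h1 (div_lt_div_of_pos_right h2 (pow_pos bs0 _))

lemma ld_prod (hJ : Fl J) (hy : ∀ a, y a ∈ J 1) {ι : Type} {x : ι → A} {z : ι → List α}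
    {c : ι → k} (h : ∀ i, x i - c i • ev y (z i) ∈ Bg J y (z i)) (l : List ι) :
    (l.map x).prod - (l.map c).prod • ev y (l.map z).flatten ∈ Bg J y (l.map z).flatten := by
  induction l with
  | nil => simp [ev]
  | cons i l ih => simpa using ld_mul hJ hy (h i) ih

lemma ld_sum {ι : Type} [Fintype ι] {x : ι → A} {z : ι → List α} (hz : Function.Injective z)
    {n : ℕ} (hn : ∀ i, (z i).length = n) (h : ∀ i, x i - (1 : k) • ev y (z i) ∈ Bg J y (z i))
    {v : ι → k} (hv : v ≠ 0) :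
    ∃ i, v i ≠ 0 ∧ ∑ j, v j • x j - v i • ev y (z i) ∈ Bg J y (z i) := by
  classical
  obtain ⟨i, h1, h2⟩ := exists_min_image (univ.filter fun j => v j ≠ 0) (fun j => psi (z j))
    (by obtain ⟨j, hj⟩ := Function.ne_iff.1 hv; exact ⟨j, by simpa using hj⟩)
  simp only [mem_filter, mem_univ, true_and] at h1 h2
  refine ⟨i, h1, ?_⟩
  rw [← add_sum_erase _ _ (mem_univ i), add_sub_right_comm, ← smul_sub]
  refine add_mem (Submodule.smul_mem _ _ (by simpa using h i)) (sum_mem fun j hj => ?_)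
  by_cases c : v j = 0
  · simp [c]
  refine Submodule.smul_mem _ _ (ge_bg ((hn j).trans (hn i).symm) ((h2 j c).lt_of_ne fun e =>
    (mem_erase.1 hj).1 (hz (psi_inj _ _ ((hn i).trans (hn j).symm) e)).symm) (ld_ge (h j)))

/-- normal words -/
def Nor (J : ℕ → Submodule k A) (y : α → A) : Set (List α) := {w | ev y w ∉ Bg J y w}

lemma nor_fac (hJ : Fl J) (hy : ∀ a, y a ∈ J 1) : Fac (Nor J y) := by
  rintro u _ ⟨a, b, rfl⟩ hw hu
  have e : ∀ w : List α, ev y w - (1 : k) • ev y w ∈ Bg J y w := fun w => by simp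
  have := ld_mul hJ hy (ld_mul hJ hy (e a) (x' := 0) (c' := -1) (by simpa using hu)) (e b)
  exact hw (by simpa using this)

lemma nor_span (n : ℕ) : Sp J y n (fun _ => True) ≤ Sp J y n (· ∈ Nor J y) := by
  classical
  have a : ∀ c (w : List α), w.length = n → ((words α n).filter fun u => psi w < psi u).card < c →
      ev y w ∈ Sp J y n (· ∈ Nor J y) := by
    intro c
    induction c with
    | zero => simp
    | succ c ih =>
      intro w hw hc
      by_cases h : w ∈ Nor J y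
      · exact Submodule.mem_sup_left (Submodule.subset_span ⟨w, ⟨hw, h⟩, rfl⟩)
      have h' : ev y w ∈ Bg J y w := not_not.1 h
      rw [Bg, hw] at h'
      refine (sup_le (Submodule.span_le.2 ?_) le_sup_right :
        Sp J y n _ ≤ Sp J y n (· ∈ Nor J y)) h'
      rintro _ ⟨u, hu, rfl⟩
      refine ih u hu.1 (lt_of_lt_of_le (card_lt_card ⟨fun s => ?_, fun s => ?_⟩)
        (Nat.le_of_lt_succ hc))
      · simp only [mem_filter]; exact fun s => ⟨s.1, hu.2.trans s.2⟩
      · simpa using s (mem_filter.2 ⟨mem_words.2 hu.1, hu.2⟩)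
  refine sup_le (Submodule.span_le.2 ?_) le_sup_right
  rintro _ ⟨u, hu, rfl⟩
  exact a _ u hu.1 (Nat.lt_succ_self _)

variable {G : Type} [Group G] {ι : G →* A}

lemma lie (hJ : Fl J) (hy : ∀ a, y a ∈ J 1) (hι : ∀ g, ι g - 1 ∈ J 1) (u v : List α)
    (hu : u ≠ []) (hv : v ≠ []) (h1 : ∃ g, ι g - 1 - (1 : k) • ev y u ∈ Bg J y u)
    (h2 : ∃ g, ι g - 1 - (1 : k) • ev y v ∈ Bg J y v) (h : th u < th v) :
    ∃ g, ι g - 1 - (1 : k) • ev y (u ++ v) ∈ Bg J y (u ++ v) := by
  obtain ⟨g, h1⟩ := h1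
  obtain ⟨g', h2⟩ := h2
  have a1 := ld_mul hJ hy h1 h2
  have a2 := ge_bg (by simp [add_comm]) ((th_lt hu hv).1 h) (ld_ge (ld_mul hJ hy h2 h1))
  have a3 := hJ.2.2 _ _ _ _ (sub_mem (sp_le hJ hy _ _ (ld_ge a1)) (sp_le hJ hy _ _ a2))
    (hι (g' * g)⁻¹)
  refine ⟨g * g' * (g' * g)⁻¹, ?_⟩
  convert add_mem (sub_mem a1 a2) (Submodule.mem_sup_right a3) using 1
  have e : ι g' * ι g * ι (g' * g)⁻¹ = 1 := by rw [← map_mul, ← map_mul, mul_inv_cancel, map_one]
  rw [map_mul, map_mul, mul_one]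
  generalize ι (g' * g)⁻¹ = s at e
  rw [← sub_eq_zero, ← sub_eq_zero.2 e]
  noncomm_ring

lemma gsum {p : ℕ} [Fact p.Prime] [Algebra (ZMod p) A] {J : ℕ → Submodule (ZMod p) A} (hJ : Fl J)
    {n : ℕ} (hn : 0 < n) {κ : Type} [Fintype κ] (g : κ → G) (h : ∀ i, ι (g i) - 1 ∈ J n)
    (v : κ → ZMod p) : ∃ s, ι s - 1 ∈ J n ∧ ι s - 1 - ∑ i, v i • (ι (g i) - 1) ∈ J (n + 1) := by
  let H : AddSubmonoid A :=
    { carrier := {x | ∃ s, ι s - 1 ∈ J n ∧ ι s - 1 - x ∈ J (n + 1)}
      zero_mem' := ⟨1, by simp, by simp⟩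
      add_mem' := by
        rintro x x' ⟨s, h1, h2⟩ ⟨s', h3, h4⟩
        have a := hJ.2.1 (by omega : n + 1 ≤ n + n) (hJ.2.2 _ _ _ _ h1 h3)
        refine ⟨s * s', ?_, ?_⟩
        · convert add_mem (add_mem h1 h3) (hJ.2.1 (Nat.le_succ n) a) using 1
          rw [map_mul]; noncomm_ring
        · convert add_mem (add_mem h2 h4) a using 1
          rw [map_mul]; noncomm_ring }
  refine H.sum_mem fun i _ => ?_
  rw [← ZMod.natCast_zmod_val (v i), Nat.cast_smul_eq_nsmul]
  exact H.nsmul_mem ⟨g i, h i, by simp⟩ _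

/-- multiplicity -/
abbrev ct {β : Type} [DecidableEq β] (s : β) (u : List β) : ℕ := u.count s

lemma sum_count {β : Type} [Fintype β] [DecidableEq β] (f : β → ℕ) (u : List β) :
    (u.map f).sum = ∑ s, ct s u * f s := by
  induction u with
  | nil => simp
  | cons b u ih => simp [ih, List.count_cons, add_mul, sum_add_distrib, add_comm]

lemma prod_count {β : Type} [Fintype β] [DecidableEq β] (f : β → ℝ) (u : List β) :
    (u.map f).prod = ∏ s, f s ^ ct s u := by
  induction u with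
  | nil => simp
  | cons b u ih =>
    simp only [List.map_cons, List.prod_cons, ih, List.count_cons, pow_add, prod_mul_distrib]
    simp [mul_comm]

lemma scount {m d : ℕ} (n : Fin m → ℕ) (i : Fin m) {t : ℝ} (t0 : 0 < t) (t1 : t ≤ 1)
    (hd : t ^ d ≤ 1 / 8) (hn : ∀ j, t ^ n j ≤ 1 / (4 * (m + 1)))
    (hi : ∑ j, (if j < i then n j else 0) ≤ n i) (S : Finset (List (Bool ⊕ Fin m)))
    (hS : ∀ u ∈ S, (u.map (Sum.elim (fun _ => d) n)).sum ≤ ∑ j, n j ∧
      ∀ j, i < j → ct (Sum.inr j) u = 1) :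
    S.card * ((1 / (4 * (m + 1))) ^ m * t ^ (2 * n i)) ≤ (2 : ℝ) := by
  set c : ℝ := 1 / (4 * (m + 1)) with hc
  have c0 : 0 < c := by positivity
  have c1 : c ≤ 1 := by
    rw [hc, div_le_one (by positivity)]; linarith [Nat.cast_nonneg (α := ℝ) m]
  let w : Bool ⊕ Fin m → ℝ := Sum.elim (fun _ => t ^ d) fun j => if i < j then c else t ^ n j
  refine le_trans ?_ (wsum w (fun s => ?_) ?_ S)
  · rw [← nsmul_eq_mul, ← sum_const]
    refine sum_le_sum fun u hu => ?_
    obtain ⟨h1, h2⟩ := hS u hu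
    rw [sum_count, Fintype.sum_sum_type] at h1
    rw [prod_count, Fintype.prod_sum_type]
    simp only [Sum.elim_inl, Sum.elim_inr, w] at h1 ⊢
    have a1 : ∑ j, n j + ∑ j, (if i < j then 0 else ct (Sum.inr j) u * n j) =
        ∑ j, ct (Sum.inr j) u * n j + (∑ j, (if j < i then n j else 0) +
          ∑ j, if j = i then n j else 0) := by
      simp only [← sum_add_distrib]
      refine sum_congr rfl fun j _ => ?_
      rcases lt_trichotomy i j with h | rfl | h
      · simp [h, h2 j h, h.ne', h.le.not_gt]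
      · simp [add_comm]
      · simp [h, h.ne, h.le.not_gt, add_comm]
    rw [sum_ite_eq' univ i n, if_pos (mem_univ _)] at a1
    calc c ^ m * t ^ (2 * n i) ≤ c ^ m * t ^ (∑ b : Bool, ct (Sum.inl b) u * d +
          ∑ j, (if i < j then 0 else ct (Sum.inr j) u * n j)) :=
          mul_le_mul_of_nonneg_left (pow_le_pow_of_le_one t0.le t1 (by omega)) (by positivity)
      _ = (∏ b : Bool, (t ^ d) ^ ct (Sum.inl b) u) *
          ∏ j, c * t ^ (if i < j then 0 else ct (Sum.inr j) u * n j) := by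
          rw [prod_mul_distrib, prod_pow_eq_pow_sum, prod_pow_eq_pow_sum, pow_add, ← sum_mul,
            pow_mul', prod_const, card_univ, Fintype.card_fin]
          ring
      _ ≤ _ := by
          refine mul_le_mul_of_nonneg_left (prod_le_prod (fun j _ => by positivity) fun j _ => ?_)
            (by positivity)
          split_ifs with h
          · simp [h2 j h]
          · rw [pow_mul']; exact mul_le_of_le_one_left (by positivity) c1
  · rcases s with b | j
    · exact pow_nonneg t0.le _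
    · simp only [w, Sum.elim_inr]; split_ifs <;> positivity
  · rw [Fintype.sum_sum_type]
    have a1 : ∑ j, w (Sum.inr j) ≤ ∑ _j : Fin m, c := sum_le_sum fun j _ => by
      simp only [w, Sum.elim_inr]; split_ifs; exacts [le_rfl, hn j]
    have a2 : (m + 1) * c = 1 / 4 := by rw [hc]; field_simp
    simp only [sum_const, card_univ, Fintype.card_fin, nsmul_eq_mul, w, Sum.elim_inl,
      Fintype.card_bool] at a1 ⊢
    push_cast
    linarith

end Pool.Agent.H.MP_43f46b_al
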