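import Pool.Agent.H.MP_43f46b_al.K

set_option autoImplicit false
set_option linter.unusedSectionVars false

namespace Pool.Agent.H.MP_43f46b_al

open Finset

section
variable {k A : Type} [Field k] [Ring A] [Algebra k A] {G : Type} [Group G] {ι : G →* A}

lemma lprod {P Q : Submodule k A} (h1 : Q ≤ P) (h2 : ∀ x ∈ P, ∀ y ∈ P, x * y ∈ Q) (l : List G)
    (h : ∀ g ∈ l, ι g - 1 ∈ P) :
    ι l.prod - 1 ∈ P ∧ ι l.prod - 1 - (l.map fun g => ι g - 1).sum ∈ Q := by
  induction l with
  | nil => simp
  | cons g l ih =>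
    obtain ⟨a1, a2⟩ := ih fun g hg => h g (List.mem_cons_of_mem _ hg)
    have a3 := h g List.mem_cons_self
    constructor
    · convert add_mem (add_mem a1 a3) (h1 (h2 _ a3 _ a1)) using 1
      rw [List.prod_cons, map_mul]; noncomm_ring
    · convert add_mem a2 (h2 _ a3 _ a1) using 1
      rw [List.prod_cons, map_mul, List.map_cons, List.sum_cons]; noncomm_ring

variable {β : Type} {v : β → A}

/-- span of words -/
abbrev sw (k : Type) [Field k] [Algebra k A] (v : β → A) (R : List β → Prop) : Submodule k A :=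
  Submodule.span k (ev v '' {u | R u})

lemma sw_mul {R R' R'' : List β → Prop} (h : ∀ u u', R u → R' u' → R'' (u ++ u')) {x x' : A}
    (hx : x ∈ sw k v R) (hx' : x' ∈ sw k v R') : x * x' ∈ sw k v R'' := by
  have := Submodule.mul_mem_mul hx hx'
  rw [Submodule.span_mul_span] at this
  refine Submodule.span_mono ?_ this
  rintro _ ⟨_, ⟨w, hw, rfl⟩, _, ⟨w', hw', rfl⟩, rfl⟩
  exact ⟨w ++ w', h w w' hw hw', ev_app _ _ _⟩

lemma sw_mono {R R' : List β → Prop} (h : ∀ u, R u → R' u) : sw k v R ≤ sw k v R' :=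
  Submodule.span_mono (Set.image_mono h)

lemma sw_one {R : List β → Prop} {s : β} (h : R [s]) : v s ∈ sw k v R :=
  Submodule.subset_span ⟨[s], h, by simp [ev]⟩

lemma expand [Fintype β] [DecidableEq β] (sl : β → Bool) (φ : Bool → A)
    (h : ∀ b, φ b - ∑ s, (if sl s = b then v s else 0) ∈ sw k v fun u => 2 ≤ u.length) :
    (∀ w : List Bool, ev φ w ∈ sw k v fun u => w.length ≤ u.length) ∧
    ∀ (w : List Bool) (u' : List β), w.length = u'.length →
      ev φ w - (if u'.map sl = w then ev v u' else 0) ∈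
        sw k v fun u => w.length ≤ u.length ∧ u ≠ u' := by
  have a1 : ∀ w : List Bool, ev φ w ∈ sw k v fun u => w.length ≤ u.length := fun w => by
    induction w with
    | nil => exact Submodule.subset_span ⟨[], by simp, rfl⟩
    | cons b w ih =>
      rw [ev_cons]
      refine sw_mul (R := fun u => 1 ≤ u.length) (fun u u' h1 h2 => by simp; omega) ?_ ih
      rw [← sub_add_cancel (φ b) (∑ s, if sl s = b then v s else 0)]
      refine add_mem (sw_mono (fun u => by omega) (h b)) (sum_mem fun s _ => ?_)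
      split_ifs
      exacts [sw_one le_rfl, zero_mem _]
  refine ⟨a1, fun w => ?_⟩
  induction w with
  | nil => intro u' h; obtain rfl := List.length_eq_zero_iff.1 h.symm; simp [ev]
  | cons b w ih =>
    intro u' hl
    obtain ⟨s, u', rfl⟩ := List.exists_cons_of_length_eq_add_one hl.symm
    simp only [List.length_cons, Nat.add_right_cancel_iff] at hl
    rw [ev_cons, ← sub_add_cancel (φ b) (∑ s, if sl s = b then v s else 0), add_mul, add_sub_assoc]
    refine add_mem (sw_mul (R := fun u => 2 ≤ u.length) (R' := fun u => w.length ≤ u.length)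
      (fun u u'' h1 h2 => ⟨by simp; omega, fun e => ?_⟩) (h b) (a1 w)) ?_
    swap
    · have := congrArg List.length e
      simp at this; omega
    rw [← add_sum_erase _ _ (mem_univ s), add_mul, add_sub_right_comm, sum_mul]
    refine add_mem ?_ (sum_mem fun s' hs => ?_)
    · by_cases c : sl s = b
      · have := sw_mul (R := (· = [s])) (R'' := fun u => (b :: w).length ≤ u.length ∧ u ≠ s :: u')
          (by rintro _ u rfl h; simpa using h) (sw_one rfl) (ih u' hl)
        convert this using 1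
        by_cases c' : u'.map sl = w <;> simp [c, c', mul_sub, ev_cons]
      · simp [c]
    · split_ifs
      · exact sw_mul (R := (· = [s'])) (by
          rintro _ u rfl h; simpa [(mem_erase.1 hs).1] using h) (sw_one rfl) (a1 w)
      · simp
end

variable {p : ℕ} [Fact p.Prime] {A : Type} [Ring A] [Algebra (ZMod p) A]
  {J : ℕ → Submodule (ZMod p) A} {α : Type} [Fintype α] {G : Type} [Group G] {ι : G →* A}

/-- the coefficient of `w0` is detected modulo `J N` -/
def Qd (J : ℕ → Submodule (ZMod p) A) (ι : G →* A) (g : Bool → G) (w0 : List Bool) (N : ℕ) : Prop :=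
  ev (fun b => ι (g b) - 1) w0 ∉
    sw (ZMod p) (fun b => ι (g b) - 1) (fun w => w0.length ≤ w.length ∧ w ≠ w0) ⊔ J N

theorem key (hJ : Fl J) (hι : ∀ g, ι g - 1 ∈ J 1) (gen : α → G) {r : ℝ} (hr : 1 < r) (n0 : ℕ)
    (hc : ∀ n, n0 ≤ n → r ^ n ≤ cnt (Nor J fun a => ι (gen a) - 1) n) :
    ∃ d, ∀ g : Bool → G, (∀ b, ι (g b) - 1 ∈ J d) → ∀ (w0 : List Bool) (N : ℕ),
      ∃ (g' : Bool → G) (N' : ℕ), N ≤ N' ∧ (∀ b, ι ((g b)⁻¹ * g' b) - 1 ∈ J N) ∧
        Qd J ι g' w0 N' := by
  classical
  obtain ⟨d, hd⟩ := core hJ hι gen hr n0 hc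
  refine ⟨d, fun g hg w0 N => ?_⟩
  obtain ⟨w, rfl⟩ := List.reverse_surjective w0
  obtain ⟨κ, Δ, h1, h2⟩ := hd _ hg w.length N
  let L : Bool → List G := fun b =>
    (List.finRange w.length).map fun i => if w.get i = b then κ i else 1
  refine ⟨fun b => g b * (L b).prod, max N Δ, le_max_left _ _, fun b => ?_, fun H => h2 ?_⟩
  · rw [inv_mul_cancel_left]
    refine (lprod le_rfl (fun x hx y hy => hJ.2.1 (Nat.le_add_right _ _) (hJ.2.2 _ _ _ _ hx hy))
      _ fun s hs => ?_).1
    obtain ⟨i, -, rfl⟩ := List.mem_map.1 hs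
    split_ifs
    exacts [h1 i, by simp]
  set v : Bool ⊕ Fin w.length → A := Sum.elim (fun b => ι (g b) - 1) fun i => ι (κ i) - 1 with hv
  obtain ⟨e1, e2⟩ := expand (k := ZMod p) (v := v) (Sum.elim id w.get)
    (fun b => ι (g b * (L b).prod) - 1) fun b => by
      have := (lprod (ι := ι) (P := sw (ZMod p) v fun u => 1 ≤ u.length)
        (Q := sw (ZMod p) v fun u => 2 ≤ u.length) (sw_mono fun u => by omega)
        (fun x hx y hy => sw_mul (fun u u' h1 h2 => by simp; omega) hx hy) (g b :: L b)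
        fun s hs => by
          rcases List.mem_cons.1 hs with rfl | hs
          · exact sw_one (s := Sum.inl b) le_rfl
          obtain ⟨i, -, rfl⟩ := List.mem_map.1 hs
          split_ifs
          exacts [sw_one (s := Sum.inr i) le_rfl, by simp]).2
      rw [List.prod_cons] at this
      convert this using 2
      rw [Fintype.sum_sum_type, List.map_cons, List.sum_cons, List.map_map, ← Fin.sum_univ_def]
      simp only [hv, Sum.elim_inl, Sum.elim_inr, id, sum_ite_eq', mem_univ, if_true,
        Function.comp_def]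
      congr 2 with i
      split_ifs <;> simp
  set u0 : List (Bool ⊕ Fin w.length) := (List.finRange w.length).reverse.map Sum.inr with hu0
  have e3 : u0.map (Sum.elim id w.get) = w.reverse := by
    rw [hu0, List.map_map, List.map_reverse]; simp
  have e4 : w.reverse.length = u0.length := by simp [hu0]
  have e5 := e2 _ u0 e4
  rw [if_pos e3] at e5
  rw [← sub_sub_cancel (ev _ w.reverse) (ev v u0)]
  refine sub_mem (sup_le_sup (Submodule.span_le.2 ?_) (hJ.2.1 (le_max_right _ _)) H)
    (Submodule.mem_sup_left (sw_mono (fun u h => h.2) e5))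
  rintro _ ⟨w', ⟨k1, k2⟩, rfl⟩
  rcases k1.eq_or_lt with k1 | k1
  · have := e2 w' u0 (k1.symm.trans e4)
    rw [if_neg (e3 ▸ Ne.symm k2), sub_zero] at this
    exact sw_mono (fun u h => h.2) this
  · exact sw_mono (fun u h => by rintro rfl; omega) (e1 w')

lemma ev_congr (hJ : Fl J) {β : Type} {v v' : β → A} {N : ℕ} (h : ∀ b, v' b - v b ∈ J N)
    (w : List β) : ev v' w - ev v w ∈ J N := by
  induction w with
  | nil => simp [ev]
  | cons b w ih =>
    have a1 := hJ.2.2 N 0 _ (ev v' w) (h b) (by simp [hJ.1])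
    have a2 := hJ.2.2 0 N (v b) _ (by simp [hJ.1]) ih
    rw [zero_add] at a2
    rw [add_zero] at a1
    convert add_mem a1 a2 using 1
    rw [ev_cons, ev_cons]; noncomm_ring

lemma qd_congr (hJ : Fl J) {g g' : Bool → G} {w0 : List Bool} {N : ℕ}
    (h : ∀ b, ι ((g b)⁻¹ * g' b) - 1 ∈ J N) (hq : Qd J ι g w0 N) : Qd J ι g' w0 N := by
  have a := ev_congr hJ (v := fun b => ι (g b) - 1) (v' := fun b => ι (g' b) - 1) fun b => by
    have := hJ.2.2 0 N (ι (g b)) _ (by simp [hJ.1]) (h b)
    rw [zero_add, mul_sub, ← map_mul, mul_inv_cancel_left, mul_one] at this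
    simpa using this
  intro H
  refine hq ?_
  rw [← sub_sub_cancel (ev _ w0) (ev (fun b => ι (g b) - 1) w0)]
  refine sub_mem (SetLike.le_def.1 (sup_le (Submodule.span_le.2 ?_) le_sup_right) H)
    (Submodule.mem_sup_right (a _))
  rintro _ ⟨w, hw, rfl⟩
  simpa using Submodule.add_mem_sup (Submodule.subset_span
    (Set.mem_image_of_mem (ev fun b => ι (g b) - 1) hw)) (a w)

lemma qd_mono (hJ : Fl J) {g : Bool → G} {w0 : List Bool} {N N' : ℕ} (h : N ≤ N')
    (hq : Qd J ι g w0 N) : Qd J ι g w0 N' := fun H => hq (sup_le_sup_left (hJ.2.1 h) _ H)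

theorem graph {B : Type} [Ring B] [Algebra (ZMod p) B] (g : Bool → G) (a : Bool → B) {n N : ℕ}
    (h1 : ∀ w : List Bool, w.length < n → Qd J ι g w N)
    (h2 : ∀ w : List Bool, n ≤ w.length → ev (fun b => a b - 1) w = 0) (l : List Bool)
    (hl : ι (l.map g).prod - 1 ∈ J N) : (l.map a).prod = 1 := by
  classical
  let v : Bool → A × B := fun b => (ι (g b) - 1, a b - 1)
  have e : ∀ w, ev v w = (ev (fun b => ι (g b) - 1) w, ev (fun b => a b - 1) w) := fun w => by
    induction w with
    | nil => rfl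
    | cons b w ih => simp only [ev_cons, ih]; rfl
  have o : (1 : A × B) ∈ sw (ZMod p) v fun u => 0 ≤ u.length :=
    Submodule.subset_span ⟨[], by simp, rfl⟩
  have a1 : ∀ l : List Bool, (ι (l.map g).prod, (l.map a).prod) ∈
      sw (ZMod p) v fun u => 0 ≤ u.length := fun l => by
    induction l with
    | nil => simpa [Prod.one_eq_mk] using o
    | cons b l ih =>
      convert add_mem (sw_mul (R := fun _ => True) (fun _ _ _ _ => Nat.zero_le _)
        (sw_one (s := b) trivial) ih) ih using 1
      simp [v, sub_mul]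
  have a2 : ∀ j ≤ n, (ι (l.map g).prod, (l.map a).prod) - 1 ∈
      sw (ZMod p) v fun u => j ≤ u.length := fun j hj => by
    induction j with
    | zero => exact sub_mem (a1 l) o
    | succ j ih =>
      obtain ⟨c, c1, c2⟩ := (Finsupp.mem_span_image_iff_linearCombination _).1 (ih (by omega))
      refine (Finsupp.mem_span_image_iff_linearCombination _).2 ⟨c, fun w hw => ?_, c2⟩
      refine lt_of_le_of_ne (c1 hw) fun k : j = w.length => h1 w (by omega) ?_
      have c3 := congrArg Prod.fst c2
      rw [Finsupp.linearCombination_apply, Finsupp.sum, ← add_sum_erase _ _ hw, Prod.fst_add,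
        Prod.fst_sum] at c3
      simp only [e, Prod.smul_fst, Prod.fst_sub, Prod.fst_one] at c3
      rw [← inv_smul_smul₀ (Finsupp.mem_support_iff.1 hw) (ev _ w), eq_sub_of_add_eq c3]
      refine Submodule.smul_mem _ _ (sub_mem (Submodule.mem_sup_right hl)
        (Submodule.mem_sup_left (sum_mem fun u hu => Submodule.smul_mem _ _
          (Submodule.subset_span ⟨u, ⟨k ▸ c1 (mem_erase.1 hu).2, (mem_erase.1 hu).1⟩, rfl⟩))))
  have a3 : (sw (ZMod p) v fun u => n ≤ u.length) ≤ LinearMap.ker (LinearMap.snd _ A B) :=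
    Submodule.span_le.2 (by rintro _ ⟨w, hw, rfl⟩; simpa [e] using h2 w hw)
  simpa [sub_eq_zero] using a3 (a2 n le_rfl)

theorem nilp {P : Type} [Group P] [Finite P] (hP : IsPGroup p P) (a : Bool → P) :
    ∃ n, ∀ w : List Bool, n ≤ w.length →
      ev (fun b => MonoidAlgebra.of (ZMod p) P (a b) - 1) w = 0 := by
  have : Finite (MonoidAlgebra (ZMod p) P) := Module.finite_of_finite (ZMod p)
  suffices H : ∀ U : Ideal (MonoidAlgebra (ZMod p) P), ∃ n, ∀ w : List Bool, n ≤ w.length →
      ev (fun b => MonoidAlgebra.of (ZMod p) P (a b) - 1) w ∈ U by simpa using H ⊥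
  intro U
  induction U using WellFoundedGT.induction with
  | ind U ih =>
  by_cases hU : U = ⊤
  · exact ⟨0, fun _ _ => by simp [hU]⟩
  let U' : Ideal (MonoidAlgebra (ZMod p) P) :=
    { carrier := {x | ∀ g, (MonoidAlgebra.of (ZMod p) P g - 1) * x ∈ U}
      add_mem' := fun h1 h2 g => by rw [mul_add]; exact add_mem (h1 g) (h2 g)
      zero_mem' := fun g => by simp
      smul_mem' := fun c x hx g => by
        rw [smul_eq_mul]
        induction c using MonoidAlgebra.induction_on with
        | of h =>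
          convert U.mul_mem_left (MonoidAlgebra.of (ZMod p) P h) (hx (h⁻¹ * g * h)) using 1
          simp only [← mul_assoc, mul_sub, sub_mul, ← map_mul, mul_inv_cancel, one_mul]
        | add x y h1 h2 => rw [add_mul, mul_add]; exact add_mem h1 h2
        | smul c y h1 => rw [smul_mul_assoc, mul_smul_comm]; exact U.smul_of_tower_mem c h1 }
  have : Finite (MonoidAlgebra (ZMod p) P ⧸ U) :=
    Finite.of_surjective _ (Submodule.Quotient.mk_surjective U)
  let := MulAction.compHom (MonoidAlgebra (ZMod p) P ⧸ U) (MonoidAlgebra.of (ZMod p) P)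
  have := Submodule.Quotient.nontrivial_iff.2 hU
  obtain ⟨x, h1, h2⟩ := hP.exists_fixed_point_of_prime_dvd_card_of_fixed_point
    (MonoidAlgebra (ZMod p) P ⧸ U) (by
      rw [Module.natCard_eq_pow_finrank (K := ZMod p), Nat.card_zmod]
      exact dvd_pow_self _ Module.finrank_pos.ne') (a := 0)
    fun g => smul_zero (MonoidAlgebra.of (ZMod p) P g)
  obtain ⟨x, rfl⟩ := Submodule.Quotient.mk_surjective _ x
  obtain ⟨n, hn⟩ := ih U' (lt_of_le_of_ne (fun x hx g => U.mul_mem_left _ hx) fun e => h2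
    ((Submodule.Quotient.mk_eq_zero _).2 (e ▸ fun g => by
      rw [sub_mul, one_mul]; exact (Submodule.Quotient.eq _).1 (h1 g))).symm)
  refine ⟨n + 1, fun w hw => ?_⟩
  obtain ⟨b, w, rfl⟩ := List.exists_cons_of_length_pos (show 0 < w.length by omega)
  rw [ev_cons]
  exact hn w (by simpa using hw) _

/-- dimension subgroups -/
def Dm (hJ : Fl J) (ι : G →* A) (n : ℕ) : Subgroup G where
  carrier := {g | ι g - 1 ∈ J n}
  one_mem' := by simp
  mul_mem' {g h} h1 h2 := by
    have := hJ.2.2 n 0 _ (ι h) h1 (by simp [hJ.1])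
    rw [add_zero] at this
    convert add_mem this h2 using 1
    simp [sub_mul]
  inv_mem' {g} h1 := by
    have := hJ.2.2 0 n (ι g⁻¹) _ (by simp [hJ.1]) h1
    rw [zero_add, mul_sub, ← map_mul, inv_mul_cancel, map_one, mul_one] at this
    simpa using neg_mem this

lemma dm_normal (hJ : Fl J) (n : ℕ) : (Dm hJ ι n).Normal := ⟨fun g h1 s => by
  have := hJ.2.2 _ 0 _ (ι s⁻¹) (hJ.2.2 0 n (ι s) _ (by simp [hJ.1]) h1) (by simp [hJ.1])
  rw [zero_add, add_zero, mul_sub, sub_mul, mul_one, ← map_mul, ← map_mul, ← map_mul,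
    mul_inv_cancel, map_one] at this
  exact this⟩

end Pool.Agent.H.MP_43f46b_al
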