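import Pool.Agent.H.MP_43f46b_al.A

set_option autoImplicit false
set_option linter.unusedSectionVars false

namespace Pool.Agent.H.MP_43f46b_al

open Finset

variable {p : ℕ} [Fact p.Prime] {A : Type} [Ring A] [Algebra (ZMod p) A]
  {J : ℕ → Submodule (ZMod p) A} {α : Type} [Fintype α] {G : Type} [Group G] {ι : G →* A}

lemma arith {s c z T M m q n : ℕ} {t γ : ℝ} (g0 : 0 < γ) (t2 : t ^ 2 * γ = 1)
    (b1 : s * ((1 / (4 * (m + 1))) ^ m * t ^ (2 * n)) ≤ (2 : ℝ)) (b3 : c ≤ q ^ T)
    (b2 : ((M + 2 * (4 * (m + 1)) ^ m * q ^ T : ℕ) + 1) * γ ^ n ≤ z) : s * c < z := by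
  refine (Nat.mul_le_mul_left _ b3).trans_lt (Nat.cast_lt (α := ℝ).1 (lt_of_lt_of_le ?_ b2))
  have b4 : (s : ℝ) ≤ 2 * (4 * (m + 1)) ^ m * γ ^ n := by
    refine le_trans (le_of_eq ?_) (mul_le_mul_of_nonneg_right b1
      (show 0 ≤ (4 * (m + 1) : ℝ) ^ m * γ ^ n by positivity)) |>.trans_eq (mul_assoc _ _ _).symm
    rw [mul_assoc, mul_mul_mul_comm, ← mul_pow, pow_mul, ← mul_pow, t2,
      one_div_mul_cancel (by positivity)]
    simp
  have b5 : (0 : ℝ) < γ ^ n := by positivity
  push_cast
  nlinarith [mul_le_mul_of_nonneg_right b4 (show (0 : ℝ) ≤ q ^ T by positivity),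
    mul_nonneg (show (0 : ℝ) ≤ M by positivity) b5.le]

lemma cardle {Z : ℕ → Finset (List α)} {n : ℕ → ℕ} (i : ℕ) :
    Nat.card (∀ j : Fin i, Z j → ZMod p) ≤ p ^ ∑ j ∈ range i, (n j + (Z j).card) := by
  simp only [Nat.card_pi, Nat.card_zmod, prod_const, card_univ, Fintype.card_coe,
    prod_pow_eq_pow_sum]
  rw [Fin.sum_univ_eq_sum_range (fun j => (Z j).card) i]
  exact Nat.pow_le_pow_right (Fact.out : p.Prime).pos (sum_le_sum fun j _ => Nat.le_add_left _ _)

lemma ct_pos {β : Type} [DecidableEq β] {s : β} {u : List β} (h : s ∈ u) : 0 < ct s u :=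
  List.count_pos_iff.2 h

lemma ct_map {β β' : Type} [DecidableEq β] [DecidableEq β'] (l : List β) {f : β → β'}
    (hf : Function.Injective f) (s : β) : ct (f s) (l.map f) = ct s l :=
  List.count_map_of_injective l f hf s

theorem core (hJ : Fl J) (hι : ∀ g, ι g - 1 ∈ J 1) (gen : α → G) {r : ℝ} (hr : 1 < r) (n0 : ℕ)
    (hc : ∀ n, n0 ≤ n → r ^ n ≤ cnt (Nor J fun a => ι (gen a) - 1) n) :
    ∃ d, ∀ a : Bool → A, (∀ b, a b ∈ J d) → ∀ m N : ℕ, ∃ (κ : Fin m → G) (Δ : ℕ),
      (∀ i, ι (κ i) - 1 ∈ J N) ∧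
      ev (Sum.elim a fun i => ι (κ i) - 1) ((List.finRange m).reverse.map Sum.inr) ∉
        Submodule.span (ZMod p) (ev (Sum.elim a fun i => ι (κ i) - 1) ''
          {u | u ≠ (List.finRange m).reverse.map Sum.inr}) ⊔ J Δ := by
  classical
  set y : α → A := fun a => ι (gen a) - 1 with hy0
  have hy : ∀ a, y a ∈ J 1 := fun a => hι _
  set t : ℝ := (√((1 + r) / 2))⁻¹ with ht
  have s1 : 1 < √((1 + r) / 2) := Real.lt_sqrt_of_sq_lt (by linarith)
  have t0 : 0 < t := by positivity
  have t1 : t < 1 := inv_lt_one_of_one_lt₀ s1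
  have t2 : t ^ 2 * ((1 + r) / 2) = 1 := by
    rw [ht, inv_pow, Real.sq_sqrt (by linarith), inv_mul_cancel₀ (by linarith)]
  obtain ⟨d, hd⟩ := exists_pow_lt_of_lt_one (show (0 : ℝ) < 1 / 8 by norm_num) t1
  have d0 : 0 < d := Nat.pos_of_ne_zero (by rintro rfl; norm_num at hd)
  refine ⟨d, fun a ha m N => ?_⟩
  obtain ⟨l0, hl0⟩ := exists_pow_lt_of_lt_one (show (0 : ℝ) < 1 / (4 * (m + 1)) by positivity) t1
  obtain ⟨n, Z, hZ, hW⟩ := prods _ (nor_fac hJ hy) hr (show 0 < (1 + r) / 2 by linarith)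
    (by linarith) n0 hc (fun z => ∃ g, ι g - 1 - (1 : ZMod p) • ev y z ∈ Bg J y z)
    (fun a => ⟨gen a, by simp [ev, y]⟩) (lie hJ hy hι)
    (fun T => T + N + l0 + 2 * (4 * (m + 1)) ^ m * p ^ T) m
  have hP : ∀ z : List α, ∃ g, (∃ g, ι g - 1 - (1 : ZMod p) • ev y z ∈ Bg J y z) →
      ι g - 1 - (1 : ZMod p) • ev y z ∈ Bg J y z := fun z => by
    by_cases h : ∃ g, ι g - 1 - (1 : ZMod p) • ev y z ∈ Bg J y z
    · exact h.imp fun g hg _ => hg
    · exact ⟨1, fun k => absurd k h⟩
  choose gz hgz using hP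
  have hκ : ∀ i (v : Z i → ZMod p), ∃ s, i < m → ι s - 1 ∈ J (n i) ∧
      ι s - 1 - ∑ z : Z i, v z • (ι (gz z) - 1) ∈ J (n i + 1) := fun i v => by
    by_cases h : i < m
    · refine (gsum hJ (Nat.zero_lt_of_lt (hZ i h).1) (fun z : Z i => gz z) (fun z => ?_) v).imp
        fun s hs _ => hs
      have := (hZ i h).2.2 z z.2
      exact this.1 ▸ sp_le hJ hy _ _ (ld_ge (hgz _ this.2.1))
    · exact ⟨1, fun k => absurd k h⟩
  choose κ hκ using hκ
  by_contra! H
  set u0 : List (Bool ⊕ Fin m) := (List.finRange m).reverse.map Sum.inr with hu0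
  let dg : Bool ⊕ Fin m → ℕ := Sum.elim (fun _ => d) fun j => n j
  set Δ := ∑ j : Fin m, n j with hΔ
  have fin : {u : List (Bool ⊕ Fin m) | (u.map dg).sum ≤ Δ}.Finite :=
    (List.finite_length_le _ Δ).subset fun u hu => le_trans (by
      simpa using List.card_nsmul_le_sum (u.map dg) 1 fun x hx => by
        obtain ⟨s, -, rfl⟩ := List.mem_map.1 hx
        rcases s with b | j
        exacts [d0, Nat.zero_lt_of_lt (hZ j j.2).1]) hu
  let val : (∀ i, Z i → ZMod p) → Bool ⊕ Fin m → A := fun X =>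
    Sum.elim a fun i => ι (κ i (X i)) - 1
  have hval : ∀ X s, val X s ∈ J (dg s) := fun X s => by
    rcases s with b | j
    exacts [ha b, (hκ j _ j.2).1]
  have he : ∀ X, ∃ e : List (Bool ⊕ Fin m) → ZMod p, ev (val X) u0 -
      ∑ u ∈ fin.toFinset.erase u0, e u • ev (val X) u ∈ J (Δ + 1) := fun X => by
    have h1 := H (fun i => κ i (X i)) (Δ + 1) fun i => hJ.2.1 (by have := (hZ i i.2).1; omega)
      (hκ i _ i.2).1
    have h2 : Submodule.span (ZMod p) (ev (val X) '' {u | u ≠ u0}) ⊔ J (Δ + 1) ≤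
        Submodule.span (ZMod p) (ev (val X) '' (fin.toFinset.erase u0)) ⊔ J (Δ + 1) := by
      refine sup_le (Submodule.span_le.2 ?_) le_sup_right
      rintro _ ⟨u, hu, rfl⟩
      rcases le_or_gt (u.map dg).sum Δ with c | c
      · exact Submodule.mem_sup_left (Submodule.subset_span ⟨u, by simpa using ⟨c, hu⟩, rfl⟩)
      · exact Submodule.mem_sup_right (hJ.2.1 c (ev_mem hJ dg (hval X) u))
    obtain ⟨x1, k1, x2, k2, k3⟩ := Submodule.mem_sup.1 (h2 h1)
    obtain ⟨e, rfl⟩ := (Submodule.mem_span_image_finset_iff_exists_fun' _).1 k1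
    exact ⟨e, by rw [← k3]; simpa using k2⟩
  choose e he using he
  have low : ∀ i : Fin m, ∑ j : Fin m, (if j < i then n j else 0) < n i := fun i => by
    refine lt_of_le_of_lt ?_ (hZ i i.2).1
    have : ∑ j : Fin m, (if j < i then n j else 0) ≤ ∑ j ∈ range i, (n j + (Z j).card) := by
      simp only [Fin.lt_def]
      rw [Fin.sum_univ_eq_sum_range (fun j => if j < i then n j else 0) m, ← sum_filter]
      exact (sum_le_sum_of_subset (fun j => by simp +contextual)).trans
        (sum_le_sum fun j _ => Nat.le_add_right _ _)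
    omega
  let S : ℕ → Finset (List (Bool ⊕ Fin m)) := fun i =>
    fin.toFinset.filter fun u => ∀ j : Fin m, i < j → ct (Sum.inr j) u = 1
  obtain ⟨X0, X1, -, k2, k3⟩ := box e S (fun i i' h => monotone_filter_right _
    fun u _ k j hj => k j (h.trans_lt hj)) m (fun i hi => by
      have b1 := scount (fun j : Fin m => n j) ⟨i, hi⟩ t0 t1.le hd.le (fun j =>
        (pow_le_pow_of_le_one t0.le t1.le (by have := (hZ j j.2).1; omega)).trans hl0.le)
        (low _).le (S i) fun u hu =>
          ⟨fin.mem_toFinset.1 (mem_filter.1 hu).1, (mem_filter.1 hu).2⟩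
      rw [Fintype.card_fun, ZMod.card, Fintype.card_coe]
      exact Nat.pow_lt_pow_right (Fact.out : p.Prime).one_lt
        (arith (by linarith) t2 b1 (cardle i) (hZ i hi).2.1)) 0
  let x : ℕ → Bool → A := fun i b => ι (κ i (bif b then X1 i else X0 i)) - 1
  have hx : ∀ i : Fin m, ∃ z ∈ Z i, ∃ c : ZMod p, c ≠ 0 ∧
      x i true - x i false - c • ev y z ∈ Bg J y z := fun i => by
    obtain ⟨z, h1, h2⟩ := ld_sum (x := fun z : Z i => ι (gz z) - 1) Subtype.val_injective
      (fun z => ((hZ i i.2).2.2 z z.2).1) (fun z => hgz _ ((hZ i i.2).2.2 z z.2).2.1)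
      (sub_ne_zero.2 (k2 i i.2).symm)
    refine ⟨z, z.2, _, h1, ?_⟩
    have h3 := sub_mem (hκ i (X1 i) i.2).2 (hκ i (X0 i) i.2).2
    rw [← ((hZ i i.2).2.2 z z.2).1] at h3
    convert add_mem h2 (Submodule.mem_sup_right h3) using 1
    simp only [x, Pi.sub_apply, sub_smul, sum_sub_distrib, cond_true, cond_false]
    abel
  choose z hz c hc0 hzc using hx
  have zl : ∀ i, (z i).length = n i := fun i => ((hZ i i.2).2.2 _ (hz i)).1
  have fl : ∀ l : List (Fin m), l.Perm (List.finRange m).reverse → (l.map z).flatten.length = Δ :=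
    fun l hl => by
      rw [List.length_flatten, List.map_map, (hl.trans (List.reverse_perm _)).map _ |>.sum_eq,
        hΔ, Fin.sum_univ_def]
      simp [Function.comp_def, zl]
  have dp : ∀ l : List (Fin m), l.Perm (List.finRange m).reverse →
      DD m (fun ε => ev (val (vtx X0 X1 ε)) (l.map Sum.inr)) 0 =
        (l.map fun i : Fin m => x i true - x i false).prod := fun l hl => by
    have := DD_prod m x (l.map Fin.val) (fun i hi => by
      rw [List.count_map_of_injective l _ Fin.val_injective ⟨i, hi⟩, hl.count_eq]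
      exact List.count_eq_one_of_mem (List.nodup_reverse.2 (List.nodup_finRange m)) (by simp)) 0
    simp only [List.map_map, Function.comp_def, Fin.is_lt, if_true] at this
    rw [← this]
    simp only [ev, List.map_map]
    rfl
  have d1 := DD_mem _ m _ (fun ε => he (vtx X0 X1 ε)) 0
  rw [DD_sum, dp _ (List.Perm.refl _), ← congrArg (fun s => J (s + 1)) (fl _ (List.Perm.refl _))]
    at d1
  have d2 := ld_prod hJ hy hzc (List.finRange m).reverse
  have d3 : ∑ u ∈ fin.toFinset.erase u0, DD m (fun ε => e (vtx X0 X1 ε) u •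
      ev (val (vtx X0 X1 ε)) u) 0 ∈ Bg J y ((List.finRange m).reverse.map z).flatten := by
    refine sum_mem fun u hu => ?_
    obtain ⟨q1, q2⟩ := mem_erase.1 hu
    have q3 : (u.map dg).sum ≤ Δ := by simpa using q2
    rw [sum_count, Fintype.sum_sum_type] at q3
    simp only [dg, Sum.elim_inl, Sum.elim_inr] at q3
    by_cases h : ∀ j, ct (Sum.inr j) u = 1
    · rw [DD_smul m _ _ fun i hi ε => k3 i hi ε u (mem_filter.2 ⟨q2, fun j _ => h j⟩)]
      obtain ⟨l, rfl⟩ : ∃ l : List (Fin m), u = l.map Sum.inr := by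
        have q4 : ∀ b, Sum.inl b ∉ u := fun b hb => by
          have := single_le_sum (f := fun b => ct (Sum.inl b) u * d) (fun _ _ => Nat.zero_le _)
            (mem_univ b)
          have := Nat.mul_pos (ct_pos hb) d0
          simp only [h, one_mul] at q3
          omega
        clear * - q4
        induction u with
        | nil => exact ⟨[], rfl⟩
        | cons s u ih =>
          obtain ⟨l, rfl⟩ := ih fun b hb => q4 b (List.mem_cons_of_mem _ hb)
          rcases s with b | j
          · exact absurd List.mem_cons_self (q4 b)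
          · exact ⟨j :: l, rfl⟩
      have hl : l.Perm (List.finRange m).reverse := List.perm_iff_count.2 fun j => by
        rw [List.count_eq_one_of_mem (List.nodup_reverse.2 (List.nodup_finRange m)) (by simp),
          ← h j, ct_map l Sum.inr_injective]
      rw [dp l hl]
      refine Submodule.smul_mem _ _ (ge_bg ((fl l hl).trans (fl _ (List.Perm.refl _)).symm)
        ((sorted z (fun i hi => ?_) _ ?_ l hl).resolve_left fun k => q1 (by rw [k]))
        (ld_ge (ld_prod hJ hy hzc l)))
      · have h1 := zl i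
        have := (hZ i i.2).1
        rw [hi, List.length_nil] at h1; omega
      · exact List.pairwise_reverse.2 ((List.pairwise_lt_finRange m).imp fun {i j : Fin m} hij =>
          ((hZ j j.2).2.2 _ (hz j)).2.2 i hij _ (hz i))
    · obtain ⟨i, h1, h2⟩ := exists_max_image (univ.filter fun j => ct (Sum.inr j) u ≠ 1) id
        (by simpa [filter_nonempty_iff] using h)
      simp only [mem_filter, mem_univ, true_and, id] at h1 h2
      have h3 : ∀ j, i < j → ct (Sum.inr j) u = 1 := fun j hj => by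
        by_contra k; exact (h2 j k).not_gt hj
      have h4 : Sum.inr i ∉ u := fun k => by
        have k' := ct_pos k
        have a1 : ∑ j : Fin m, n j + ∑ j : Fin m, (if j = i then n j else 0) ≤
            ∑ j : Fin m, ct (Sum.inr j) u * n j + ∑ j : Fin m, if j < i then n j else 0 := by
          simp only [← sum_add_distrib]
          refine sum_le_sum fun j _ => ?_
          rcases lt_trichotomy i j with h | rfl | h
          · simp [h3 j h, h.ne']
          · simpa [← two_mul] using Nat.mul_le_mul_right _ (show 2 ≤ ct (Sum.inr i) u by omega)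
          · simp [h, h.ne]
        rw [sum_ite_eq' univ i fun j : Fin m => n j, if_pos (mem_univ _)] at a1
        have := low i
        omega
      rw [DD_zero m i i.2 _ fun ε => ?_]
      · exact zero_mem _
      rw [k3 i i.2 ε u (mem_filter.2 ⟨q2, h3⟩)]
      refine congrArg (fun l : List A => _ • l.prod) (List.map_congr_left fun s hs => ?_)
      rcases s with b | j
      · rfl
      · have : (j : ℕ) ≠ i := fun k => h4 (Fin.ext k ▸ hs)
        simp [val, vtx, this]
  have d4 := Submodule.smul_mem _ ((List.finRange m).reverse.map c).prod⁻¹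
    (sub_mem (add_mem (Submodule.mem_sup_right d1) d3) d2)
  rw [sub_add_cancel, sub_sub_cancel, inv_smul_smul₀ (List.prod_ne_zero fun k => by
    obtain ⟨i, -, hi⟩ := List.mem_map.1 k; exact hc0 i hi)] at d4
  have := hW (fun i => if h : i < m then z ⟨i, h⟩ else []) fun i hi => by
    simpa [hi] using hz ⟨i, hi⟩
  rw [← List.map_coe_finRange_eq_range, ← List.map_reverse, List.map_map] at this
  simp only [Function.comp_def, Fin.is_lt, dite_true] at this
  exact this d4

end Pool.Agent.H.MP_43f46b_al
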