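import Pool.Agent.H.MP_43f46b_al.W

set_option autoImplicit false

namespace Pool.Agent.H.MP_43f46b_al

open Finset Filter Topology

variable {α : Type} [Fintype α]

/-- words of a given length -/
noncomputable def words (α : Type) [Fintype α] (n : ℕ) : Finset (List α) :=
  (List.finite_length_eq α n).toFinset

@[simp] lemma mem_words {n : ℕ} {w : List α} : w ∈ words α n ↔ w.length = n := by
  simp [words]

open Classical in
/-- number of words of a given length in a language -/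
noncomputable def cnt (W : Set (List α)) (n : ℕ) : ℕ := ((words α n).filter (· ∈ W)).card

/-- closed under factors -/
def Fac (W : Set (List α)) : Prop := ∀ u w : List α, u <:+: w → w ∈ W → u ∈ W

/-- a mean on words with a Gibbs upper bound -/
def IsMu (W : Set (List α)) (r : ℝ) (μ : Set (List α) → ℝ) : Prop :=
  (∀ Y, 0 ≤ μ Y) ∧ μ W = 1 ∧
  (∀ Y Y1 Y2 : Set (List α), (∀ w ∈ Y, w ∈ W → w ∈ Y1 ∨ w ∈ Y2) → μ Y ≤ μ Y1 + μ Y2) ∧
  (∀ L, μ {w | w.length < L} = 0) ∧
  ∀ (A Y : Set (List α)) (Z : List α → Set (List α)) (β : ℝ),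
    (∀ w ∈ A, w ∈ W → ∃ x z, w = x ++ z ∧ x ∈ Y ∧ z ∈ Z x) →
    (∀ x ∈ Y, ∀ T : Finset (List α), ↑T ⊆ Z x → ∑ z ∈ T, r⁻¹ ^ z.length ≤ β) → μ A ≤ β * μ Y

theorem exists_mu (W : Set (List α)) (hW : Fac W) (r : ℝ) (hr : 1 < r) (n0 : ℕ)
    (hc : ∀ n, n0 ≤ n → r ^ n ≤ cnt W n) : ∃ μ, IsMu W r μ := by
  classical
  have r0 : 0 < r := zero_lt_one.trans hr
  let U : ℕ → Finset (List α) := fun N => (List.finite_length_lt α N).toFinset
  have hU : ∀ N w, w ∈ U N ↔ w.length < N := fun N w => by simp [U]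
  let ms : Set (List α) → ℕ → ℝ := fun Y N =>
    ∑ w ∈ (U N).filter (fun w => w ∈ W ∧ w ∈ Y), r⁻¹ ^ w.length
  have p0 : ∀ w : List α, 0 ≤ r⁻¹ ^ w.length := fun w => by positivity
  have m0 : ∀ Y N, 0 ≤ ms Y N := fun Y N => sum_nonneg fun w _ => p0 w
  have m1 : ∀ Y N, ms Y N ≤ ms W N := fun Y N =>
    sum_le_sum_of_subset_of_nonneg (fun w => by simp +contextual) fun w _ _ => p0 w
  have m2 : ∀ j : ℕ, (j : ℝ) ≤ ms W (n0 + j) := fun j => by
    induction j with
    | zero => simpa using m0 _ _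
    | succ j ih =>
      have e : (U (n0 + (j + 1))).filter (fun w => w ∈ W ∧ w ∈ W) =
          (U (n0 + j)).filter (fun w => w ∈ W ∧ w ∈ W) ∪ (words α (n0 + j)).filter (· ∈ W) := by
        ext w; simp only [mem_filter, hU, mem_union, mem_words]
        constructor
        · rintro ⟨h1, h2, -⟩
          rcases Nat.lt_succ_iff_lt_or_eq.1 h1 with h | h
          · exact Or.inl ⟨h, h2, h2⟩
          · exact Or.inr ⟨h, h2⟩
        · rintro (⟨h1, h2⟩ | ⟨h1, h2⟩)
          · exact ⟨by omega, h2⟩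
          · exact ⟨by omega, h2, h2⟩
      have e2 : ∑ w ∈ (words α (n0 + j)).filter (· ∈ W), r⁻¹ ^ w.length =
          cnt W (n0 + j) * r⁻¹ ^ (n0 + j) := by
        rw [sum_congr rfl (g := fun _ => r⁻¹ ^ (n0 + j)) fun w hw => by
          rw [mem_words.1 (mem_filter.1 hw).1]]
        simp [cnt]
      have e3 : 1 ≤ cnt W (n0 + j) * r⁻¹ ^ (n0 + j) := by
        rw [inv_pow, ← div_eq_mul_inv, one_le_div (by positivity)]; exact hc _ (by omega)
      simp only [ms] at ih ⊢
      rw [e, sum_union (disjoint_left.2 fun w h1 h2 => by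
        simp only [mem_filter, hU, mem_words] at h1 h2; omega), e2]
      push_cast; linarith
  have m3 : Tendsto (ms W) (hyperfilter ℕ) atTop := by
    refine Tendsto.mono_left ((tendsto_add_atTop_iff_nat n0).1 ?_) Nat.hyperfilter_le_atTop
    exact tendsto_atTop_mono (fun j => by rw [add_comm]; exact m2 j) tendsto_natCast_atTop_atTop
  let f : Set (List α) → ℕ → ℝ := fun Y N => ms Y N / ms W N
  have f1 : ∀ Y N, f Y N ∈ Set.Icc (0 : ℝ) 1 := fun Y N =>
    ⟨div_nonneg (m0 _ _) (m0 _ _), div_le_one_of_le₀ (m1 _ _) (m0 _ _)⟩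
  have f2 : ∀ S, ∃ y, Tendsto (f S) (hyperfilter ℕ) (𝓝 y) := fun S => by
    obtain ⟨y, -, h⟩ := isCompact_Icc.ultrafilter_le_nhds' ((hyperfilter ℕ).map (f S))
      (mem_map.2 (Eventually.of_forall (f1 S)))
    exact ⟨y, h⟩
  choose μ hμ using f2
  refine ⟨μ, fun S => ge_of_tendsto' (hμ S) fun L => (f1 S L).1, ?_, fun Y Y1 Y2 h => ?_,
    fun L => ?_, fun A Y Z β h1 h2 => ?_⟩
  · refine tendsto_nhds_unique (hμ _) (tendsto_const_nhds.congr' ?_)
    filter_upwards [m3.eventually_gt_atTop 0] with N hN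
    exact (div_self hN.ne').symm
  · refine le_of_tendsto_of_tendsto' (hμ _) ((hμ Y1).add (hμ Y2)) fun N => ?_
    simp only [f, ← add_div]
    refine div_le_div_of_nonneg_right ?_ (m0 _ _)
    simp only [ms, sum_filter, ← sum_add_distrib]
    refine sum_le_sum fun w _ => ?_
    have := h w
    have := p0 w
    by_cases k1 : w ∈ W <;> by_cases k2 : w ∈ Y <;> by_cases k3 : w ∈ Y1 <;>
      by_cases k4 : w ∈ Y2 <;> simp_all
  · refine le_antisymm (le_of_tendsto_of_tendsto' (hμ _)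
      (m3.const_div_atTop (ms W L)) fun N => ?_) (ge_of_tendsto' (hμ _) fun L => (f1 _ L).1)
    refine div_le_div_of_nonneg_right ?_ (m0 _ _)
    exact sum_le_sum_of_subset_of_nonneg (fun w => by simp +contextual [hU]) fun w _ _ => p0 w
  · refine le_of_tendsto_of_tendsto' (hμ _) ((hμ Y).const_mul β) fun N => ?_
    simp only [f, ← mul_div_assoc]
    refine div_le_div_of_nonneg_right ?_ (m0 _ _)
    choose! x z k1 k2 k3 using h1
    simp only [ms]
    rw [← sum_fiberwise_of_maps_to (g := x) (t := (U N).filter (fun w => w ∈ W ∧ w ∈ Y)), mul_sum]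
    · refine sum_le_sum fun y hy => ?_
      set F := ((U N).filter (fun w => w ∈ W ∧ w ∈ A)).filter (fun w => x w = y) with hF
      have q : ∀ w ∈ F, w = y ++ z w ∧ z w ∈ Z y := fun w hw => by
        simp only [hF, mem_filter] at hw
        exact hw.2 ▸ ⟨k1 w hw.1.2.2 hw.1.2.1, k3 w hw.1.2.2 hw.1.2.1⟩
      have := h2 y (mem_filter.1 hy).2.2 (F.image z) (fun t ht => by
        obtain ⟨w, hw, rfl⟩ := mem_image.1 ht; exact (q w hw).2)
      rw [sum_image fun w hw w' hw' e => by rw [(q w hw).1, (q w' hw').1, e]] at this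
      refine le_trans (le_of_eq ?_) (mul_le_mul_of_nonneg_right this (p0 y))
      rw [sum_mul]
      refine sum_congr rfl fun w hw => ?_
      rw [← pow_add, add_comm, ← List.length_append, ← (q w hw).1]
    · intro w hw
      simp only [mem_filter, hU] at hw ⊢
      have e := k1 w hw.2.2 hw.2.1
      refine ⟨?_, hW _ _ (List.prefix_append _ (z w)).isInfix (e ▸ hw.2.1), k2 w hw.2.2 hw.2.1⟩
      have := congrArg List.length e
      simp only [List.length_append] at this; omega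

theorem exists_min (W0 : Set (List α)) (hW : Fac W0) (r : ℝ) (n0 : ℕ)
    (hc : ∀ n, n0 ≤ n → r ^ n ≤ cnt W0 n) : ∃ W ⊆ W0, Fac W ∧ (∀ n, n0 ≤ n → r ^ n ≤ cnt W n) ∧
      ∀ v ∈ W, ∃ n, n0 ≤ n ∧ (cnt {w ∈ W | ¬ v <:+: w} n : ℝ) < r ^ n := by
  classical
  obtain ⟨W, h1, h2⟩ := zorn_superset_nonempty
    {W : Set (List α) | Fac W ∧ ∀ n, n0 ≤ n → r ^ n ≤ cnt W n} (fun c hc hch hne => by
      refine ⟨⋂₀ c, ⟨fun u w h hw s hs => (hc hs).1 u w h (hw s hs), fun n hn => ?_⟩,
        fun s hs => Set.sInter_subset_of_mem hs⟩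
      obtain ⟨s, hs, hm⟩ := (wellFounded_lt.onFun (f := fun s : Set (List α) => cnt s n)).has_min
        c hne
      refine ((hc hs).2 n hn).trans (Nat.cast_le.2 (card_le_card fun w hw => ?_))
      refine mem_filter.2 ⟨(mem_filter.1 hw).1, fun s' hs' => ?_⟩
      rcases hch.total hs hs' with k | k
      · exact k (mem_filter.1 hw).2
      · have : (words α n).filter (· ∈ s') = (words α n).filter (· ∈ s) :=
          eq_of_subset_of_card_le (monotone_filter_right _ fun w _ h => k h)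
            (not_lt.1 (hm s' hs'))
        exact (mem_filter.1 (this ▸ hw : w ∈ (words α n).filter (· ∈ s'))).2) W0 ⟨hW, hc⟩
  refine ⟨W, h1, h2.1.1, h2.1.2, fun v hv => ?_⟩
  by_contra! h
  exact (h2.2 (y := {w ∈ W | ¬ v <:+: w}) ⟨fun u w k hw => ⟨h2.1.1 u w k hw.1,
    fun k' => hw.2 (k'.trans k)⟩, h⟩ (fun w hw => hw.1) hv).2 List.infix_rfl

end Pool.Agent.H.MP_43f46b_al
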