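import Pool.Agent.H.MP_43f46b_al.M

set_option autoImplicit false

namespace Pool.Agent.H.MP_43f46b_al

open Finset Filter Topology

variable {α : Type} [Fintype α]

/-- least word of its length -/
def Mn (W : Set (List α)) (p : List α) : Prop :=
  p ∈ W ∧ ∀ w ∈ W, w.length = p.length → psi p ≤ psi w

/-- no nonempty suffix is least -/
def Gd (W : Set (List α)) (y : List α) : Prop := ∀ q, q <:+ y → q ≠ [] → ¬ Mn W q

/-- right extendable -/
def Ext (W : Set (List α)) : Prop := [] ∈ W ∧ ∀ w ∈ W, ∀ j, ∃ x : List α, x.length = j ∧ w ++ x ∈ W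

variable {W : Set (List α)}

lemma mn_cmp {p w : List α} (hp : Mn W p) (hw : w ∈ W) (hn : ¬ Mn W w) (hl : p.length = w.length)
    (x y : List α) : psi (p ++ x) < psi (w ++ y) := by
  refine gap _ _ hl ?_ x y
  by_contra! h
  exact hn ⟨hw, fun u hu e => h.trans (hp.2 u hu (e.trans hl.symm))⟩

lemma mn_pre (hF : Fac W) (hE : Ext W) {p q : List α} (h : Mn W q) (hp : p <+: q) : Mn W p := by
  obtain ⟨t, rfl⟩ := hp
  refine ⟨hF _ _ (List.prefix_append _ _).isInfix h.1, fun w hw e => ?_⟩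
  by_contra! k
  obtain ⟨x, h1, h2⟩ := hE.2 w hw t.length
  exact (gap _ _ e k x t).not_ge (h.2 _ h2 (by simp [e, h1]))

lemma mn_ex (hE : Ext W) (n : ℕ) : ∃ p, Mn W p ∧ p.length = n := by
  classical
  obtain ⟨x, h1, h2⟩ := hE.2 _ hE.1 n
  obtain ⟨p, k1, k2⟩ := exists_min_image ((words α n).filter (· ∈ W)) psi
    ⟨x, by simpa [h1] using h2⟩
  simp only [mem_filter, mem_words] at k1 k2
  exact ⟨p, ⟨k1.2, fun w hw e => k2 w ⟨e.trans k1.1, hw⟩⟩, k1.1⟩

lemma mn_app (hF : Fac W) {p q : List α} (hp : Mn W p) (hq : Mn W q) (h : p ++ q ∈ W) :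
    Mn W (p ++ q) := by
  refine ⟨h, fun w hw e => ?_⟩
  rw [List.length_append] at e
  have l1 : (w.take p.length).length = p.length := by simp; omega
  rw [← List.take_append_drop p.length w, psi_app, psi_app, l1]
  exact add_le_add (hp.2 _ (hF _ _ (List.take_prefix _ _).isInfix hw) l1)
    (div_le_div_of_nonneg_right (hq.2 _ (hF _ _ (List.drop_suffix _ _).isInfix hw)
      (by simp; omega)) (pow_pos bs0 _).le)

lemma mn_nil (h : [] ∈ W) : Mn W [] := ⟨h, fun w _ _ => psi0 w⟩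

lemma gsplit (hF : Fac W) (n : ℕ) : ∀ y ∈ W, y.length ≤ n →
    ∃ x q, y = x ++ q ∧ Mn W q ∧ Gd W x := by
  induction n with
  | zero =>
    intro y hy hl
    obtain rfl := List.length_eq_zero_iff.1 (Nat.le_zero.1 hl)
    exact ⟨[], [], rfl, mn_nil hy, fun q h1 h2 => absurd (List.suffix_nil.1 h1) h2⟩
  | succ n ih =>
    intro y hy hl
    by_cases h : Gd W y
    · exact ⟨y, [], by simp, mn_nil (hF _ _ List.nil_infix hy), h⟩
    simp only [Gd, not_forall, not_not] at h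
    obtain ⟨q, ⟨x, rfl⟩, h2, h3⟩ := h
    obtain ⟨x', q', rfl, k1, k2⟩ := ih x (hF _ _ (List.prefix_append _ _).isInfix hy) (by
      have := List.length_pos_iff.2 h2
      simp only [List.length_append] at hl; omega)
    exact ⟨x', q' ++ q, by simp, mn_app hF k1 h3 (hF _ _ ⟨x', [], by simp⟩ hy), k2⟩

lemma minsuf : ∀ w : List α, w ≠ [] → ∃ v, v <:+ w ∧ v ≠ [] ∧
    (∀ s, s <:+ w → s ≠ [] → psi v ≤ psi s) ∧ ∀ s, s <:+ v → s ≠ v → s ≠ [] → psi v < psi s := by
  intro w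
  induction w with
  | nil => simp
  | cons a w ih =>
    intro _
    by_cases hw : w = []
    · subst hw
      refine ⟨[a], List.suffix_rfl, by simp, fun s h1 h2 => ?_, fun s h1 h2 h3 => ?_⟩ <;>
        rcases List.suffix_cons_iff.1 h1 with h | h <;> simp_all
    obtain ⟨v, h1, h2, h3, h4⟩ := ih hw
    rcases lt_or_ge (psi (a :: w)) (psi v) with k | k
    · refine ⟨a :: w, List.suffix_rfl, by simp, fun s k1 k2 => ?_, fun s k1 k2 k3 => ?_⟩
      · rcases List.suffix_cons_iff.1 k1 with h | h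
        · rw [h]
        · exact k.le.trans (h3 s h k2)
      · rcases List.suffix_cons_iff.1 k1 with h | h
        · exact absurd h k2
        · exact k.trans_le (h3 s h k3)
    · refine ⟨v, h1.trans (List.suffix_cons _ _), h2, fun s k1 k2 => ?_, h4⟩
      rcases List.suffix_cons_iff.1 k1 with h | h
      · rw [h]; exact k
      · exact h3 s h k2

lemma window (hF : Fac W) (hE : Ext W) (P : List α → Prop) (h1 : ∀ a, P [a])
    (h2 : ∀ u v, u ≠ [] → v ≠ [] → P u → P v → th u < th v → P (u ++ v)) {x w p : List α}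
    (hx : Gd W x) (hW : x ++ w ∈ W) (hG : Gd W (x ++ w)) (hp : Mn W p) (hi : p <:+: w)
    (h0 : p ≠ []) : ∃ u v, w = u ++ v ∧ Gd W (x ++ u) ∧ p.length < v.length ∧ P v ∧
      ∀ s ∈ W, ¬ Mn W s → s.length ≤ p.length → th v < th s := by
  obtain ⟨a, b, rfl⟩ := hi
  obtain ⟨v, ⟨u, hu⟩, k2, k3, k4⟩ := minsuf (a ++ p ++ b) (by simp [h0])
  have vW : v ∈ W := hF _ _ ⟨x ++ u, [], by simp [hu]⟩ hW
  have vM : ¬ Mn W v := hG v ⟨x ++ u, by simp [hu]⟩ k2
  have c1 : ∀ s ∈ W, ¬ Mn W s → s.length ≤ p.length → psi v < psi s := fun s s1 s2 s3 => by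
    have := mn_cmp (mn_pre hF hE hp (List.take_prefix s.length p)) s1 s2 (by simpa using s3)
      (p.drop s.length ++ b) []
    rw [← List.append_assoc, List.take_append_drop, List.append_nil] at this
    exact (k3 _ ⟨a, by simp⟩ (by simp [h0])).trans_lt this
  have c2 : p.length < v.length := by
    by_contra! h
    exact lt_irrefl _ (c1 v vW vM h)
  refine ⟨u, v, hu.symm, fun q q1 q2 q3 => ?_, c2, lyndon P h1 h2 v k2 fun u' s e e1 e2 =>
    k4 s ⟨u', e.symm⟩ (fun h => e1 (by simpa [h] using e)) e2, fun s s1 s2 s3 => ?_⟩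
  · by_cases h : q <:+ u
    · classical
      have ex : ∃ j, ¬ Mn W (v.take j) := ⟨v.length, by simpa using vM⟩
      obtain ⟨j, hj⟩ : ∃ j, Nat.find ex = j + 1 := Nat.exists_eq_succ_of_ne_zero fun h => by
        have := Nat.find_spec ex
        rw [h] at this
        exact this (by simpa using mn_nil hE.1)
      have j1 : ¬ Mn W (v.take (j + 1)) := hj ▸ Nat.find_spec ex
      have j2 : Mn W (v.take j) := not_not.1 (Nat.find_min ex (by omega))
      have j3 : j < v.length := by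
        by_contra! h
        exact vM (by rwa [List.take_of_length_le h] at j2)
      obtain ⟨t, rfl⟩ := h
      have j4 := mn_app hF q3 j2 (hF _ _ ⟨x ++ t, v.drop j, by simp [← hu]⟩ hW)
      have := List.length_pos_iff.2 q2
      have j5 := mn_cmp (mn_pre hF hE j4 (List.take_prefix (j + 1) _))
        (hF _ _ (List.take_prefix _ _).isInfix vW) j1 (by simp; omega)
        ((q ++ v.take j).drop (j + 1) ++ v.drop j) (v.drop (j + 1))
      rw [← List.append_assoc, List.take_append_drop, List.take_append_drop, List.append_assoc,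
        List.take_append_drop] at j5
      exact j5.not_ge (k3 _ ⟨t, by simp [← hu]⟩ (by simp [q2]))
    · obtain ⟨q', rfl⟩ :=
        (List.suffix_or_suffix_of_suffix q1 (List.suffix_append x u)).resolve_left h
      exact hx q' (List.suffix_append_self_iff.1 q1) (by rintro rfl; simp at h)
        (mn_pre hF hE q3 (List.prefix_append _ _))
  · have sn : s ≠ [] := by rintro rfl; exact s2 (mn_nil s1)
    rw [th_lt k2 sn]
    have m : Mn W (v.take s.length) := by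
      by_contra h
      exact (c1 _ (hF _ _ (List.take_prefix _ _).isInfix vW) h (by simp; omega)).not_ge
        (by simpa using psi_le (v.take s.length) (v.drop s.length))
    simpa [← List.append_assoc] using mn_cmp m s1 s2 (by simp; omega) (v.drop s.length ++ s) v

lemma geo {t : ℝ} (h0 : 0 ≤ t) (h1 : t < 1) {ε : ℝ} (hε : 0 < ε) :
    ∃ L : ℕ, ∀ s : Finset ℕ, (∀ j ∈ s, L < j) → ∑ j ∈ s, t ^ j ≤ ε := by
  obtain ⟨S, hS⟩ := summable_iff_vanishing_norm.1 (summable_geometric_of_lt_one h0 h1) ε hε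
  refine ⟨S.sup id, fun s hs => (le_abs_self _).trans (hS s (disjoint_left.2 fun j h h' => ?_)).le⟩
  exact (hs j h).not_ge (le_sup (f := id) h')

variable {r : ℝ} {μ : Set (List α) → ℝ}

set_option linter.unusedSectionVars false

lemma mu_sum (h : IsMu W r μ) {ι : Type} (s : Finset ι) (Y : ι → Set (List α)) :
    ∀ A B : Set (List α), (∀ w ∈ A, w ∈ W → w ∈ B ∨ ∃ i ∈ s, w ∈ Y i) →
      μ A ≤ μ B + ∑ i ∈ s, μ (Y i) := by
  classical
  induction s using Finset.induction_on with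
  | empty =>
    intro A B k
    have := h.2.2.1 A B {w | w.length < 0} fun w h1 h2 => Or.inl (by simpa using k w h1 h2)
    rw [h.2.2.2.1] at this; simpa using this
  | insert i s hi ih =>
    intro A B k
    rw [sum_insert hi, ← add_assoc]
    refine (ih A (B ∪ Y i) fun w h1 h2 => ?_).trans
      (add_le_add_left (h.2.2.1 _ _ _ fun w h1 _ => h1) _)
    rcases k w h1 h2 with k | ⟨j, k1, k2⟩
    · exact Or.inl (Or.inl k)
    · rcases mem_insert.1 k1 with rfl | k1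
      · exact Or.inl (Or.inr k2)
      · exact Or.inr ⟨j, k1, k2⟩

lemma mu_fin (h : IsMu W r μ) (hr : 1 < r) (A Y : Set (List α)) (n : ℕ)
    (Z : List α → Finset (List α)) (b : ℝ)
    (h1 : ∀ w ∈ A, w ∈ W → ∃ x z, w = x ++ z ∧ x ∈ Y ∧ z.length = n ∧ z ∈ Z x)
    (h2 : ∀ x ∈ Y, ((Z x).card : ℝ) ≤ b) : μ A ≤ b * r⁻¹ ^ n * μ Y := by
  refine h.2.2.2.2 A Y (fun x => {z | z.length = n ∧ z ∈ Z x}) _ h1 fun x hx T hT => ?_
  rw [sum_congr rfl (g := fun _ => r⁻¹ ^ n) fun z hz => by rw [(hT hz).1], sum_const,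
    nsmul_eq_mul]
  exact mul_le_mul_of_nonneg_right ((Nat.cast_le.2 (card_le_card fun z hz => (hT hz).2)).trans
    (h2 x hx)) (by positivity)

lemma mu_shift (h : IsMu W r μ) (hr : 1 < r) (n : ℕ) : ∃ K : ℝ, 0 < K ∧ ∀ A Y : Set (List α),
    (∀ w ∈ A, w ∈ W → ∃ x z, w = x ++ z ∧ x ∈ Y ∧ z.length = n) → μ A ≤ K * μ Y :=
  ⟨((words α n).card + 1) * r⁻¹ ^ n, by positivity, fun A Y k =>
    mu_fin h hr A Y n (fun _ => words α n) _ (fun w h1 h2 => by
      obtain ⟨x, z, k⟩ := k w h1 h2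
      exact ⟨x, z, k.1, k.2.1, k.2.2, mem_words.2 k.2.2⟩) fun _ _ => by simp⟩

lemma mu_avoid (h : IsMu W r μ) (hr : 1 < r) (hF : Fac W) {v : List α} {n : ℕ}
    (hn : (cnt {w ∈ W | ¬ v <:+: w} n : ℝ) < r ^ n) {ε : ℝ} (hε : 0 < ε) :
    ∃ L, μ {w | ¬ ∃ x z, w = x ++ z ∧ z.length = L ∧ v <:+: z} ≤ ε := by
  classical
  set ρ := (cnt {w ∈ W | ¬ v <:+: w} n : ℝ) * r⁻¹ ^ n with hρ
  have r1 : ρ < 1 := by
    rw [hρ, inv_pow, ← div_eq_mul_inv, div_lt_one (by positivity)]; exact hn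
  have r0 : 0 ≤ ρ := by positivity
  have a : ∀ k, μ {w | ∃ x z, w = x ++ z ∧ z.length = k * n ∧ ¬ v <:+: z} ≤ ρ ^ k := by
    intro k
    induction k with
    | zero =>
      have := h.2.2.1 {w | ∃ x z, w = x ++ z ∧ z.length = 0 * n ∧ ¬ v <:+: z} W
        {w | w.length < 0} fun w _ h2 => Or.inl h2
      rw [h.2.2.2.1, h.2.1] at this; simpa using this
    | succ k ih =>
      refine (mu_fin h hr _ _ n (fun _ => (words α n).filter (· ∈ {w ∈ W | ¬ v <:+: w}))
        (cnt {w ∈ W | ¬ v <:+: w} n) ?_ fun _ _ => le_of_eq (by rw [cnt]; congr!)).trans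
        (by rw [pow_succ']; exact mul_le_mul_of_nonneg_left ih r0)
      rintro _ ⟨x, z, rfl, h1, h2⟩ hw
      have e : (z.drop (k * n)).length = n := by simp [h1, add_mul]
      refine ⟨x ++ z.take (k * n), z.drop (k * n), by simp, ⟨x, _, rfl, by simp [h1, add_mul],
        fun k => h2 (k.trans (List.take_prefix _ _).isInfix)⟩, e, mem_filter.2 ⟨mem_words.2 e,
        hF _ _ ((List.drop_suffix _ _).trans (List.suffix_append _ _)).isInfix hw,
        fun k => h2 (k.trans (List.drop_suffix _ _).isInfix)⟩⟩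
  obtain ⟨k, hk⟩ := exists_pow_lt_of_lt_one hε r1
  refine ⟨k * n, (h.2.2.1 _ {w | ∃ x z, w = x ++ z ∧ z.length = k * n ∧ ¬ v <:+: z}
    {w | w.length < k * n} fun w h1 _ => ?_).trans ?_⟩
  · by_cases c : w.length < k * n
    · exact Or.inr c
    · have e : (w.drop (w.length - k * n)).length = k * n := by simp; omega
      exact Or.inl ⟨_, _, (List.take_append_drop _ _).symm, e,
        fun k => h1 ⟨_, _, (List.take_append_drop _ _).symm, e, k⟩⟩
  · rw [h.2.2.2.1, add_zero]; exact (a k).trans hk.le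

lemma mu_tail (h : IsMu W r μ) (hr : 1 < r) (hF : Fac W) {ε : ℝ} (hε : 0 < ε) :
    ∃ L, μ {w | ∃ x q, w = x ++ q ∧ Mn W q ∧ L < q.length} ≤ ε := by
  classical
  obtain ⟨L, hL⟩ := geo (t := r⁻¹) (by positivity) (inv_lt_one_of_one_lt₀ hr) hε
  refine ⟨L, (h.2.2.2.2 _ W (fun _ => {q | Mn W q ∧ L < q.length}) ε ?_ fun _ _ T hT => ?_).trans
    (by rw [h.2.1, mul_one])⟩
  · rintro _ ⟨x, q, rfl, k⟩ hw
    exact ⟨x, q, rfl, hF _ _ (List.prefix_append _ _).isInfix hw, k⟩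
  · have := hL (T.image List.length) fun j hj => by
      obtain ⟨q, hq, rfl⟩ := mem_image.1 hj; exact (hT hq).2
    rwa [sum_image fun q hq q' hq' e => psi_inj _ _ e (le_antisymm
      ((hT hq).1.2 _ (hT hq').1.1 e.symm) ((hT hq').1.2 _ (hT hq).1.1 e))] at this

lemma mu_ne (h : IsMu W r μ) {Y : Set (List α)} (hY : 0 < μ Y) : ∃ y ∈ Y, y ∈ W := by
  by_contra! k
  have := mu_sum h (∅ : Finset ℕ) (fun _ => ∅) Y {w | w.length < 0} fun w a b => (k w a b).elim
  rw [h.2.2.2.1] at this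
  simp at this; linarith

/-- recurrence -/
def Rec (W : Set (List α)) (μ : Set (List α) → ℝ) : Prop :=
  ∀ v ∈ W, ∀ ε : ℝ, 0 < ε → ∃ L, μ {w | ¬ ∃ x z, w = x ++ z ∧ z.length = L ∧ v <:+: z} ≤ ε

lemma mu_ext (h : IsMu W r μ) (hr : 1 < r) (hF : Fac W) (hR : Rec W μ) : Ext W := by
  obtain ⟨y, -, hy⟩ := mu_ne h (Y := W) (by rw [h.2.1]; exact one_pos)
  refine ⟨hF _ _ List.nil_infix hy, fun v hv j => ?_⟩
  obtain ⟨K, K0, hK⟩ := mu_shift h hr j
  obtain ⟨L, hL⟩ := hR v hv (1 / (2 * K)) (by positivity)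
  by_contra! c
  have a1 := hK {w | w ∈ W ∧ j ≤ w.length} {w | ¬ ∃ x z, w = x ++ z ∧ z.length = L ∧ v <:+: z}
    (fun w hw _ => ⟨w.take (w.length - j),
    w.drop (w.length - j), (List.take_append_drop _ _).symm, by
        rintro ⟨x, _, e, -, a, b, rfl⟩
        refine c ((b ++ w.drop (w.length - j)).take j) (by have := hw.2; simp; omega)
          (hF _ w ⟨x ++ a, (b ++ w.drop (w.length - j)).drop j, ?_⟩ hw.1)
        conv_rhs => rw [← List.take_append_drop (w.length - j) w, e]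
        simp only [List.append_assoc, List.take_append_drop], by have := hw.2; simp; omega⟩)
  have a2 := h.2.2.1 W {w | w ∈ W ∧ j ≤ w.length} {w | w.length < j} fun w hw _ =>
    (le_or_gt j w.length).imp_left fun k => ⟨hw, k⟩
  rw [h.2.2.2.1, h.2.1] at a2
  have a3 : K * (1 / (2 * K)) = 1 / 2 := by field_simp
  nlinarith [mul_le_mul_of_nonneg_left hL K0.le]

lemma mu_good (h : IsMu W r μ) (hr : 1 < r) (hF : Fac W) : 0 < μ {w | w ∈ W ∧ Gd W w} := by
  refine (h.1 _).lt_of_ne' fun e => ?_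
  obtain ⟨L, hL⟩ := mu_tail h hr hF (ε := 1 / 2) (by norm_num)
  have := mu_sum h (range (L + 1)) (fun j => {w | ∃ x z, w = x ++ z ∧
    x ∈ {w | w ∈ W ∧ Gd W w} ∧ z.length = j}) W _ (fun w hw _ => by
      obtain ⟨x, q, rfl, k1, k2⟩ := gsplit hF _ w hw le_rfl
      rcases lt_or_ge L q.length with c | c
      · exact Or.inl (show _ ∈ {w | ∃ x q, w = x ++ q ∧ Mn W q ∧ L < q.length} from
          ⟨x, q, rfl, k1, c⟩)
      · exact Or.inr ⟨_, mem_range.2 (Nat.lt_succ_of_le c), x, q, rfl,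
          ⟨hF _ _ (List.prefix_append _ _).isInfix hw, k2⟩, rfl⟩)
  rw [h.2.1, sum_eq_zero fun j _ => le_antisymm (by
    obtain ⟨K, -, hK⟩ := mu_shift h hr j
    exact (hK _ {w | w ∈ W ∧ Gd W w} fun w hw _ => hw).trans (by rw [e, mul_zero]))
      (h.1 _)] at this
  linarith

theorem step (h : IsMu W r μ) (hr : 1 < r) (hF : Fac W) (hR : Rec W μ) (P : List α → Prop)
    (h1 : ∀ a, P [a]) (h2 : ∀ u v, u ≠ [] → v ≠ [] → P u → P v → th u < th v → P (u ++ v))
    {γ : ℝ} (g0 : 0 < γ) (g1 : γ < r) {Y : Set (List α)} (hY : ∀ y ∈ Y, y ∈ W ∧ Gd W y)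
    (Y0 : 0 < μ Y) (l : ℕ) (C : ℝ) (hC : 0 < C) : ∃ (n : ℕ) (Z : Finset (List α))
      (Y' : Set (List α)), l < n ∧ C * γ ^ n ≤ Z.card ∧ (∀ y ∈ Y', y ∈ W ∧ Gd W y) ∧ 0 < μ Y' ∧
      (∀ y ∈ Y', ∀ z ∈ Z, y ++ z ∈ Y) ∧ ∀ z ∈ Z, z.length = n ∧ P z ∧
        ∀ s ∈ W, ¬ Mn W s → s.length ≤ l → th z < th s := by
  classical
  have hE := mu_ext h hr hF hR
  have r0 : 0 < r := zero_lt_one.trans hr
  obtain ⟨l0, hl0⟩ := geo (t := γ * r⁻¹) (by positivity)
    (by rw [← div_eq_mul_inv, div_lt_one r0]; exact g1) (ε := μ Y / (4 * C)) (by positivity)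
  obtain ⟨p, hp, pl⟩ := mn_ex hE (l + l0 + 1)
  obtain ⟨L1, k1⟩ := hR p hp.1 (μ Y / 4) (by positivity)
  obtain ⟨K, K0, hK⟩ := mu_shift h hr L1
  obtain ⟨L2, k2⟩ := mu_tail h hr hF (ε := μ Y / (4 * K)) (by positivity)
  let c : ℕ → List α → Finset (List α) := fun n y => (words α n).filter fun z => y ++ z ∈ Y ∧
    P z ∧ ∀ s ∈ W, ¬ Mn W s → s.length ≤ l → th z < th s
  let Y1 : ℕ → Set (List α) := fun n => {y | (y ∈ W ∧ Gd W y) ∧ C * γ ^ n ≤ (c n y).card}
  let A : ℕ → Set (List α) := fun n => {w | ∃ y z, w = y ++ z ∧ (y ∈ W ∧ Gd W y) ∧ z ∈ c n y}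
  have a1 : ∃ n, l + l0 < n ∧ 0 < μ (Y1 n) := by
    by_contra! hc
    have b1 : ∀ n ∈ Ioc (l + l0) (L1 + L2), μ (A n) ≤ C * (γ * r⁻¹) ^ n := fun n hn => by
      obtain ⟨K', -, hK'⟩ := mu_shift h hr n
      have b2 := hK' {w | ∃ y z, w = y ++ z ∧ y ∈ Y1 n ∧ z.length = n} (Y1 n) fun w hw _ => hw
      have b3 := mu_fin h hr {w | ∃ y z, w = y ++ z ∧ (y ∈ W ∧ ((c n y).card : ℝ) ≤ C * γ ^ n) ∧
        z.length = n ∧ z ∈ c n y} {y | y ∈ W ∧ ((c n y).card : ℝ) ≤ C * γ ^ n} n (c n)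
        (C * γ ^ n) (fun w hw _ => hw) fun _ hx => hx.2
      have b4 := h.2.2.1 {y | y ∈ W ∧ ((c n y).card : ℝ) ≤ C * γ ^ n} W {w | w.length < 0}
        fun w _ hw => Or.inl hw
      rw [h.2.1, h.2.2.2.1, add_zero] at b4
      rw [le_antisymm (hc n (mem_Ioc.1 hn).1) (h.1 _), mul_zero] at b2
      refine (h.2.2.1 _ _ _ ?_).trans ((add_le_add b2 b3).trans ?_)
      · rintro _ ⟨y, z, rfl, q1, q2⟩ -
        have q3 := mem_words.1 (mem_filter.1 q2).1
        rcases le_total (C * γ ^ n) (c n y).card with q | q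
        · exact Or.inl ⟨y, z, rfl, ⟨q1, q⟩, q3⟩
        · exact Or.inr ⟨y, z, rfl, ⟨q1.1, q⟩, q3, q2⟩
      · rw [zero_add, mul_pow, ← mul_assoc]
        exact mul_le_of_le_one_right (by positivity) b4
    have b2 := hK {w | ∃ x z, w = x ++ z ∧ x ∈ {w | ∃ x q, w = x ++ q ∧ Mn W q ∧ L2 < q.length} ∧
      z.length = L1} {w | ∃ x q, w = x ++ q ∧ Mn W q ∧ L2 < q.length} fun w hw _ => hw
    have b3 := mu_sum h (Ioc (l + l0) (L1 + L2)) A Y
      ({w | ¬ ∃ x z, w = x ++ z ∧ z.length = L1 ∧ p <:+: z} ∪ {w | ∃ x z, w = x ++ z ∧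
        x ∈ {w | ∃ x q, w = x ++ q ∧ Mn W q ∧ L2 < q.length} ∧ z.length = L1}) fun w hw wW => by
      by_cases q1 : ∃ x z, w = x ++ z ∧ z.length = L1 ∧ p <:+: z
      swap
      · exact Or.inl (Or.inl q1)
      obtain ⟨x, z, rfl, q2, q3⟩ := q1
      obtain ⟨x, q, rfl, q4, q5⟩ :=
        gsplit hF _ x (hF _ _ (List.prefix_append _ _).isInfix wW) le_rfl
      rcases lt_or_ge L2 q.length with q6 | q6
      · exact Or.inl (Or.inr ⟨_, z, rfl, ⟨x, q, rfl, q4, q6⟩, q2⟩)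
      rw [List.append_assoc] at hw wW ⊢
      obtain ⟨u, v, e, t1, t2, t3, t4⟩ := window hF hE P h1 h2 q5 wW (hY _ hw).2 hp
        (q3.trans (List.suffix_append _ _).isInfix) (by rintro rfl; simp at pl)
      have := congrArg List.length e
      simp only [List.length_append] at this
      rw [e, ← List.append_assoc] at hw wW ⊢
      exact Or.inr ⟨v.length, mem_Ioc.2 ⟨by omega, by omega⟩, x ++ u, v, rfl,
        ⟨hF _ _ (List.prefix_append _ _).isInfix wW, t1⟩, mem_filter.2 ⟨mem_words.2 rfl, hw, t3,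
          fun s s1 s2 s3 => t4 s s1 s2 (by omega)⟩⟩
    have b4 := h.2.2.1 (_ ∪ _) {w | ¬ ∃ x z, w = x ++ z ∧ z.length = L1 ∧ p <:+: z}
      {w | ∃ x z, w = x ++ z ∧ x ∈ {w | ∃ x q, w = x ++ q ∧ Mn W q ∧ L2 < q.length} ∧
        z.length = L1} fun w hw _ => hw
    have b5 := (sum_le_sum b1).trans (show _ ≤ C * (μ Y / (4 * C)) by
      rw [← mul_sum]
      exact mul_le_mul_of_nonneg_left (hl0 _ fun j hj => by
        have := (mem_Ioc.1 hj).1; omega) hC.le)
    have b6 := b2.trans (mul_le_mul_of_nonneg_left k2 K0.le)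
    have e1 : C * (μ Y / (4 * C)) = μ Y / 4 := by field_simp
    have e2 : K * (μ Y / (4 * K)) = μ Y / 4 := by field_simp
    linarith
  obtain ⟨n, n1, n2⟩ := a1
  have a2 := mu_sum h (words α n).powerset (fun Z => {y | y ∈ Y1 n ∧ c n y = Z}) (Y1 n)
    {w | w.length < 0} fun y hy _ => Or.inr ⟨_, mem_powerset.2 (filter_subset _ _), hy, rfl⟩
  rw [h.2.2.2.1, zero_add] at a2
  obtain ⟨Z, -, hZ⟩ := exists_lt_of_sum_lt (f := fun _ => (0 : ℝ))
    ((sum_const_zero.trans_lt n2).trans_le a2)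
  obtain ⟨y, hy, -⟩ := mu_ne h hZ
  refine ⟨n, Z, _, by omega, hy.2 ▸ hy.1.2, fun y hy => hy.1.1, hZ, fun y hy z hz => ?_,
    fun z hz => ?_⟩
  · exact (mem_filter.1 (hy.2.symm ▸ hz : z ∈ c n y)).2.1
  · have := mem_filter.1 (hy.2.symm ▸ hz : z ∈ c n y)
    exact ⟨mem_words.1 this.1, this.2.2⟩

theorem prods (W0 : Set (List α)) (hW : Fac W0) {r γ : ℝ} (hr : 1 < r) (g0 : 0 < γ) (g1 : γ < r)
    (n0 : ℕ) (hc : ∀ n, n0 ≤ n → r ^ n ≤ cnt W0 n) (P : List α → Prop)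
    (h1 : ∀ a, P [a]) (h2 : ∀ u v, u ≠ [] → v ≠ [] → P u → P v → th u < th v → P (u ++ v))
    (Φ : ℕ → ℕ) (m : ℕ) : ∃ (n : ℕ → ℕ) (Z : ℕ → Finset (List α)),
      (∀ i < m, Φ (∑ j ∈ range i, (n j + (Z j).card)) < n i ∧
        (Φ (∑ j ∈ range i, (n j + (Z j).card)) + 1) * γ ^ n i ≤ (Z i).card ∧
        ∀ z ∈ Z i, z.length = n i ∧ P z ∧ ∀ j < i, ∀ w ∈ Z j, th z < th w) ∧
      ∀ z : ℕ → List α, (∀ i < m, z i ∈ Z i) → ((List.range m).reverse.map z).flatten ∈ W0 := by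
  obtain ⟨W, w1, hF, w3, w4⟩ := exists_min W0 hW r n0 hc
  obtain ⟨μ, h⟩ := exists_mu W hF r hr n0 w3
  have hR : Rec W μ := fun v hv ε hε => by
    obtain ⟨n, -, hn⟩ := w4 v hv
    exact mu_avoid h hr hF hn hε
  suffices H : ∃ (n : ℕ → ℕ) (Z : ℕ → Finset (List α)) (Y : Set (List α)),
      (∀ i < m, Φ (∑ j ∈ range i, (n j + (Z j).card)) < n i ∧
        (Φ (∑ j ∈ range i, (n j + (Z j).card)) + 1) * γ ^ n i ≤ (Z i).card ∧
        ∀ z ∈ Z i, (z ∈ W ∧ ¬ Mn W z) ∧ z.length = n i ∧ P z ∧ ∀ j < i, ∀ w ∈ Z j, th z < th w) ∧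
      (∀ y ∈ Y, y ∈ W ∧ Gd W y) ∧ 0 < μ Y ∧ ∀ y ∈ Y, ∀ z : ℕ → List α, (∀ i < m, z i ∈ Z i) →
        y ++ ((List.range m).reverse.map z).flatten ∈ W by
    obtain ⟨n, Z, Y, k1, -, k3, k4⟩ := H
    obtain ⟨y, hy, -⟩ := mu_ne h k3
    exact ⟨n, Z, fun i hi => ⟨(k1 i hi).1, (k1 i hi).2.1, fun z hz => ((k1 i hi).2.2 z hz).2⟩,
      fun z hz => w1 (hF _ _ (List.suffix_append _ _).isInfix (k4 y hy z hz))⟩
  induction m with
  | zero =>
    exact ⟨0, fun _ => ∅, _, by simp, fun y hy => hy, mu_good h hr hF, fun y hy z _ => by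
      simpa using hy.1⟩
  | succ m ih =>
    obtain ⟨n, Z, Y, k1, k2, k3, k4⟩ := ih
    set t := ∑ j ∈ range m, (n j + (Z j).card) with ht
    obtain ⟨n', Z', Y', q1, q2, q3, q4, q5, q6⟩ := step h hr hF hR P h1 h2 g0 g1 k2 k3
      (Φ t + t) (Φ t + 1) (by positivity)
    have e : ∀ i ≤ m, ∑ j ∈ range i, (Function.update n m n' j + (Function.update Z m Z' j).card)
        = ∑ j ∈ range i, (n j + (Z j).card) := fun i hi => sum_congr rfl fun j hj => by
      have : j ≠ m := by have := mem_range.1 hj; omega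
      simp [this]
    refine ⟨Function.update n m n', Function.update Z m Z', Y', fun i hi => ?_, q3, q4,
      fun y hy z hz => ?_⟩
    · rw [e i (by omega)]
      rcases Nat.lt_succ_iff_lt_or_eq.1 hi with hi | rfl
      · simp only [Function.update_of_ne hi.ne]
        refine ⟨(k1 i hi).1, (k1 i hi).2.1, fun z hz => ?_⟩
        obtain ⟨a1, a2, a3, a4⟩ := (k1 i hi).2.2 z hz
        exact ⟨a1, a2, a3, fun j hj w hw => a4 j hj w
          (by rwa [Function.update_of_ne (by omega)] at hw)⟩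
      · simp only [Function.update_self]
        refine ⟨by rw [← ht]; omega, q2, fun z hz => ?_⟩
        obtain ⟨y, hy, -⟩ := mu_ne h q4
        have a := k2 _ (q5 y hy z hz)
        have a0 := (q6 z hz).1
        refine ⟨⟨hF _ _ (List.suffix_append _ _).isInfix a.1, a.2 _ (List.suffix_append _ _)
          (by rintro rfl; simp at a0; omega)⟩, a0, (q6 z hz).2.1, fun j hj w hw => ?_⟩
        rw [Function.update_of_ne hj.ne] at hw
        obtain ⟨a1, a2, -⟩ := (k1 j hj).2.2 w hw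
        have := single_le_sum (f := fun j => n j + (Z j).card) (fun _ _ => Nat.zero_le _)
          (mem_range.2 hj)
        exact (q6 z hz).2.2 w a1.1 a1.2 (by omega)
    · have := k4 _ (q5 y hy (z m) (by simpa using hz m (by omega))) z fun i hi => by
        simpa [hi.ne] using hz i (by omega)
      simpa [List.range_succ] using this

end Pool.Agent.H.MP_43f46b_al
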