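import Pool.Agent.H.MP_43f46b_al.E

set_option autoImplicit false
set_option linter.unusedSectionVars false

namespace Pool.Agent.H.MP_43f46b_al

open Finset MonoidAlgebra

section
variable {p : ℕ} [Fact p.Prime] {A : Type} [Ring A] [Algebra (ZMod p) A]
  {J : ℕ → Submodule (ZMod p) A} {α : Type} [Fintype α] {G : Type} [Group G] {ι : G →* A}
  [TopologicalSpace G] [IsTopologicalGroup G] [CompactSpace G]

theorem limit (hJ : Fl J) (hι : ∀ g, ι g - 1 ∈ J 1) (gen : α → G) {r : ℝ} (hr : 1 < r) (n0 : ℕ)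
    (hc : ∀ n, n0 ≤ n → r ^ n ≤ cnt (Nor J fun a => ι (gen a) - 1) n)
    (ho : ∀ n, IsOpen (Dm hJ ι n : Set G)) : ∃ x : Bool → G, ∀ w, ∃ N, Qd J ι x w N := by
  obtain ⟨d, hd⟩ := key hJ hι gen hr n0 hc
  obtain ⟨w, hw⟩ := exists_surjective_nat (List Bool)
  let St := {s : (Bool → G) × ℕ // (∀ b, s.1 b ∈ Dm hJ ι d) ∧ d ≤ s.2}
  have st : ∀ (j : ℕ) (s : St), ∃ s' : St, s.1.2 ≤ s'.1.2 ∧
      (∀ b, (s.1.1 b)⁻¹ * s'.1.1 b ∈ Dm hJ ι s.1.2) ∧ Qd J ι s'.1.1 (w j) s'.1.2 := fun j s => by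
    obtain ⟨g', N', h1, h2, h3⟩ := hd s.1.1 s.2.1 (w j) s.1.2
    refine ⟨⟨(g', N'), fun b => ?_, s.2.2.trans h1⟩, h1, h2, h3⟩
    simpa using mul_mem (s.2.1 b) (show _ ∈ Dm hJ ι d from hJ.2.1 s.2.2 (h2 b))
  choose f f1 f2 f3 using st
  let s : ℕ → St := fun j => Nat.rec ⟨(1, d), fun _ => one_mem _, le_rfl⟩ f j
  have c : ∀ j, IsClosed {x : Bool → G | ∀ b, ((s j).1.1 b)⁻¹ * x b ∈ Dm hJ ι (s j).1.2} :=
    fun j => by
      simp only [Set.ofPred_forall]
      exact isClosed_iInter fun b => ((Dm hJ ι _).isClosed_of_isOpen (ho _)).preimage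
        (f := fun x : Bool → G => ((s j).1.1 b)⁻¹ * x b) (by fun_prop)
  obtain ⟨x, hx⟩ := IsCompact.nonempty_iInter_of_sequence_nonempty_isCompact_isClosed
    (fun j => {x : Bool → G | ∀ b, ((s j).1.1 b)⁻¹ * x b ∈ Dm hJ ι (s j).1.2}) (fun j x hx b => by
      simpa [← mul_assoc] using mul_mem (f2 j (s j) b)
        (show ((f j (s j)).1.1 b)⁻¹ * x b ∈ Dm hJ ι (s j).1.2 from hJ.2.1 (f1 j (s j)) (hx b)))
    (fun j => ⟨(s j).1.1, fun b => by simp⟩) (c 0).isCompact c
  refine ⟨x, fun u => ?_⟩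
  obtain ⟨j, rfl⟩ := hw u
  exact ⟨_, qd_congr hJ (Set.mem_iInter.1 hx (j + 1)) (f3 j (s j))⟩

theorem free (hJ : Fl J) (ho : ∀ n, IsOpen (Dm hJ ι n : Set G)) (x : Bool → G)
    (hx : ∀ w, ∃ N, Qd J ι x w N) (P : Type) [Group P] [Finite P] (hP : IsPGroup p P) (a b : P) :
    ∃ f : ↥((Subgroup.closure ({x true, x false} : Set G)).topologicalClosure) →* P,
      IsOpen ((f.ker : Set ↥((Subgroup.closure ({x true, x false} : Set G)).topologicalClosure))) ∧
      (∀ h : ↥((Subgroup.closure ({x true, x false} : Set G)).topologicalClosure),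
        (h : G) = x true → f h = a) ∧
      (∀ h : ↥((Subgroup.closure ({x true, x false} : Set G)).topologicalClosure),
        (h : G) = x false → f h = b) := by
  let c : Bool → P := fun s => bif s then a else b
  obtain ⟨n, hn⟩ := nilp hP c
  choose N hN using hx
  set M := (List.finite_length_lt Bool n).toFinset.sup N with hM
  have := dm_normal (ι := ι) hJ M
  have := (Dm hJ ι M).quotient_finite_of_isOpen (ho M)
  let q := QuotientGroup.mk' (Dm hJ ι M)
  let Γ : Subgroup ((G ⧸ Dm hJ ι M) × P) :=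
    { carrier := {γ | ∃ l : List Bool, γ = (q (l.map x).prod, (l.map c).prod)}
      one_mem' := ⟨[], by simp [Prod.one_eq_mk]⟩
      mul_mem' := by rintro _ _ ⟨l, rfl⟩ ⟨l', rfl⟩; exact ⟨l ++ l', by simp⟩
      inv_mem' := by
        rintro _ ⟨l, rfl⟩
        obtain ⟨k, hk⟩ := mem_powers_iff_mem_zpowers.2
          (Subgroup.inv_mem _ (Subgroup.mem_zpowers (q (l.map x).prod, (l.map c).prod)))
        refine ⟨(List.replicate k l).flatten, hk ▸ ?_⟩
        simp [List.map_flatten, List.prod_flatten] }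
  have u : ∀ s t t', (s, t) ∈ Γ → (s, t') ∈ Γ → t = t' := fun s t t' h h' => by
    obtain ⟨l, hl⟩ := mul_mem (inv_mem h) h'
    simp only [Prod.inv_mk, Prod.mk_mul_mk, inv_mul_cancel, Prod.mk.injEq] at hl
    have := graph (J := J) x (fun s => of (ZMod p) P (c s)) (fun w hw => qd_mono hJ
      (le_sup (f := N) ((List.finite_length_lt Bool n).mem_toFinset.2 hw)) (hN w)) hn l
      ((QuotientGroup.eq_one_iff _).1 hl.1.symm)
    rw [← inv_mul_eq_one, hl.2]
    refine of_injective (R := ZMod p) ?_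
    rw [map_one, ← this, map_list_prod, List.map_map]; rfl
  have g : ∀ s, (q (x s), c s) ∈ Γ := fun s => ⟨[s], by simp⟩
  have o : Dm hJ ι M ≤ (Γ.map (MonoidHom.fst _ _)).comap q := fun s hs =>
    ⟨1, one_mem _, ((QuotientGroup.eq_one_iff _).2 hs).symm⟩
  have e : ∀ h : ↥((Subgroup.closure ({x true, x false} : Set G)).topologicalClosure),
      ∃ t, (q h, t) ∈ Γ := fun h => by
    obtain ⟨γ, h1, h2⟩ := Subgroup.topologicalClosure_minimal _
      (t := (Γ.map (MonoidHom.fst _ _)).comap q) ((Subgroup.closure_le _).2 (by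
        rintro _ (rfl | rfl) <;> exact ⟨_, g _, rfl⟩))
      (Subgroup.isClosed_of_isOpen _ (Subgroup.isOpen_mono o (ho M))) h.2
    exact ⟨γ.2, h2 ▸ h1⟩
  choose F hF using e
  refine ⟨MonoidHom.mk' F fun h h' => u _ _ _ (hF _) (by simpa using mul_mem (hF h) (hF h')),
    Subgroup.isOpen_mono (H₁ := (Dm hJ ι M).comap (Subgroup.subtype _)) (fun h hh => ?_)
      ((ho M).preimage continuous_subtype_val),
    fun h e => u _ _ _ (hF h) (by rw [e]; exact g true),
    fun h e => u _ _ _ (hF h) (by rw [e]; exact g false)⟩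
  refine u _ _ _ (hF h) ?_
  rw [show q h = 1 from (QuotientGroup.eq_one_iff _).2 hh]
  exact one_mem Γ
end

variable (k : Type) [Field k] (G : Type) [Group G]

/-- augmentation ideal -/
noncomputable abbrev Ag : Submodule k (MonoidAlgebra k G) :=
  Submodule.span k (Set.range fun g : G => (single g (1 : k) - 1 : MonoidAlgebra k G))

/-- powers of the augmentation ideal -/
noncomputable def Mp : ℕ → Submodule k (MonoidAlgebra k G)
  | 0 => ⊤
  | n + 1 => Ag k G ^ (n + 1)

variable {G}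

/-- kernel of the projection -/
noncomputable def Kn (N : Subgroup G) : Submodule k (MonoidAlgebra k G) :=
  Submodule.span k {x | ∃ g g' : G, g⁻¹ * g' ∈ N ∧ x = of k G g - of k G g'}

variable {k}

lemma ag (g : G) : of k G g - 1 ∈ Ag k G := Submodule.subset_span ⟨g, rfl⟩

lemma ideal {S : Set (MonoidAlgebra k G)}
    (h : ∀ x ∈ S, ∀ g, of k G g * x ∈ Submodule.span k S ∧ x * of k G g ∈ Submodule.span k S) :
    ⊤ * Submodule.span k S ≤ Submodule.span k S ∧ Submodule.span k S * ⊤ ≤ Submodule.span k S := by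
  have e : (⊤ : Submodule k (MonoidAlgebra k G)) = Submodule.span k (Set.range (of k G)) :=
    (eq_top_iff.2 fun x _ => by
      induction x using MonoidAlgebra.induction_on with
      | of g => exact Submodule.subset_span ⟨g, rfl⟩
      | add x y hx hy => exact add_mem (hx trivial) (hy trivial)
      | smul c x hx => exact Submodule.smul_mem _ c (hx trivial)).symm
  rw [e, Submodule.span_mul_span, Submodule.span_mul_span, Submodule.span_le, Submodule.span_le]
  constructor
  · rintro _ ⟨_, ⟨g, rfl⟩, x, hx, rfl⟩; exact (h x hx g).1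
  · rintro _ ⟨x, hx, _, ⟨g, rfl⟩, rfl⟩; exact (h x hx g).2

lemma mp_fl : Fl (Mp k G) := by
  obtain ⟨a1, a2⟩ := ideal (k := k) (G := G)
    (S := Set.range fun g : G => (single g (1 : k) - 1 : MonoidAlgebra k G)) (by
      rintro _ ⟨g, rfl⟩ h
      constructor
      · convert sub_mem (ag (h * g)) (ag h) using 1
        rw [map_mul, mul_sub, mul_one, sub_sub_sub_cancel_right]; rfl
      · convert sub_mem (ag (g * h)) (ag h) using 1
        rw [map_mul, sub_mul, one_mul, sub_sub_sub_cancel_right]; rfl)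
  have b1 : ∀ n, ⊤ * Mp k G n ≤ Mp k G n
    | 0 => le_top
    | n + 1 => by rw [Mp, pow_succ', ← mul_assoc]; exact mul_le_mul_left a1 _
  have b2 : ∀ n, Mp k G n * ⊤ ≤ Mp k G n
    | 0 => le_top
    | n + 1 => by rw [Mp, pow_succ, mul_assoc]; exact mul_le_mul_right a2 _
  refine ⟨rfl, antitone_nat_of_succ_le fun n => ?_, fun a b x y hx hy => ?_⟩
  · cases n with
    | zero => exact le_top
    | succ n => exact (pow_succ _ _).trans_le ((mul_le_mul_right le_top _).trans (b2 (n + 1)))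
  · rcases a with _ | a
    · rw [zero_add]; exact b1 _ (Submodule.mul_mem_mul hx hy)
    rcases b with _ | b
    · exact b2 _ (Submodule.mul_mem_mul hx hy)
    · rw [← add_assoc, Mp, add_assoc, pow_add]; exact Submodule.mul_mem_mul hx hy

lemma jn_fl (N : Subgroup G) (hN : N.Normal) : Fl fun n => Mp k G n ⊔ Kn k N := by
  obtain ⟨a1, a2⟩ := ideal (k := k) (G := G)
    (S := {x | ∃ g g' : G, g⁻¹ * g' ∈ N ∧ x = of k G g - of k G g'}) (by
      rintro _ ⟨g, g', h1, rfl⟩ h
      exact ⟨Submodule.subset_span ⟨h * g, h * g', by simpa [mul_assoc] using h1, by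
        simp only [mul_sub, map_mul]⟩, Submodule.subset_span ⟨g * h, g' * h, by
        simpa [mul_assoc] using hN.conj_mem _ h1 h⁻¹, by simp only [sub_mul, map_mul]⟩⟩)
  refine ⟨top_sup_eq _, fun a b h => sup_le_sup_right (mp_fl.2.1 h) _, fun a b x y hx hy => ?_⟩
  obtain ⟨x1, h1, x2, h2, rfl⟩ := Submodule.mem_sup.1 hx
  obtain ⟨x3, h3, x4, h4, rfl⟩ := Submodule.mem_sup.1 hy
  rw [add_mul, mul_add, add_assoc]
  exact Submodule.add_mem_sup (mp_fl.2.2 _ _ _ _ h1 h3) (add_mem
    (a1 (Submodule.mul_mem_mul trivial h4)) (a2 (Submodule.mul_mem_mul h2 trivial)))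

variable [TopologicalSpace G] [IsTopologicalGroup G]

variable (k G) in
/-- closed powers of the augmentation ideal -/
noncomputable def Jc (n : ℕ) : Submodule k (MonoidAlgebra k G) :=
  ⨅ N : {N : Subgroup G // N.Normal ∧ IsOpen (N : Set G)}, Mp k G n ⊔ Kn k N

lemma jc_fl : Fl (Jc k G) :=
  ⟨by simp [Jc, Mp], fun a b h => iInf_mono fun N => (jn_fl N.1 N.2.1).2.1 h,
    fun a b x y hx hy => (Submodule.mem_iInf _).2 fun N => (jn_fl N.1 N.2.1).2.2 _ _ _ _
      ((Submodule.mem_iInf _).1 hx N) ((Submodule.mem_iInf _).1 hy N)⟩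

lemma mp1 (g : G) : of k G g - 1 ∈ Mp k G 1 := by rw [Mp, zero_add, pow_one]; exact ag g

lemma jc1 (g : G) : of k G g - 1 ∈ Jc k G 1 :=
  (Submodule.mem_iInf _).2 fun _ => Submodule.mem_sup_left (mp1 g)

lemma jn_span {s : Finset G} (hs : Dense (Subgroup.closure (s : Set G) : Set G)) (N : Subgroup G)
    (hN : N.Normal) (ho : IsOpen (N : Set G)) (n : ℕ) : Mp k G n ⊔ Kn k N ≤
      Sp (fun n => Mp k G n ⊔ Kn k N) (fun a : s => of k G a - 1) n fun _ => True := by
  refine sup_le ?_ (le_sup_right.trans le_sup_right)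
  have hJ := jn_fl (k := k) N hN
  have m1 : ∀ g, of k G g - 1 ∈ Mp k G 1 ⊔ Kn k N := fun g => Submodule.mem_sup_left (mp1 g)
  have a1 : Ag k G ≤ Sp (fun n => Mp k G n ⊔ Kn k N) (fun a : s => of k G a - 1) 1
      fun _ => True := by
    have m2 := fun g h : G => Submodule.mem_sup_right (S := Submodule.span k
      (ev (fun a : s => of k G a - 1) '' {w | w.length = 1 ∧ True})) (hJ.2.2 _ _ _ _ (m1 g) (m1 h))
    have b : ∀ g ∈ Subgroup.closure (s : Set G), of k G g - 1 ∈
        Sp (fun n => Mp k G n ⊔ Kn k N) (fun a : s => of k G a - 1) 1 fun _ => True := by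
      intro g hg
      induction hg using Subgroup.closure_induction with
      | mem g hg =>
        exact Submodule.mem_sup_left (Submodule.subset_span ⟨[⟨g, hg⟩], by simp, by simp [ev]⟩)
      | one => simp [-of_apply]
      | mul g h _ _ ig ih =>
        convert add_mem (add_mem ig ih) (m2 g h) using 1
        simp only [map_mul]; noncomm_ring
      | inv g _ ig =>
        convert sub_mem (neg_mem ig) (m2 g⁻¹ g) using 1
        simp only [sub_mul, mul_sub, ← map_mul, inv_mul_cancel, map_one, mul_one, one_mul]; abel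
    refine Submodule.span_le.2 ?_
    rintro _ ⟨g, rfl⟩
    obtain ⟨g', h1, h2⟩ := hs.exists_mem_open (U := (fun x => g⁻¹ * x) ⁻¹' N)
      (ho.preimage (by fun_prop)) ⟨g, by simp⟩
    have := add_mem (b g' h1) (Submodule.mem_sup_right (Submodule.mem_sup_right
      (Submodule.subset_span ⟨g, g', h2, rfl⟩ : _ ∈ Kn k N)))
    rwa [sub_add_sub_cancel'] at this
  induction n with
  | zero =>
    intro x _
    induction x using MonoidAlgebra.induction_on with
    | of g =>
      rw [← add_sub_cancel 1 (of k G g)]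
      exact Submodule.add_mem_sup (Submodule.subset_span ⟨[], by simp, rfl⟩) (m1 g)
    | add x y hx hy => exact add_mem (hx trivial) (hy trivial)
    | smul c x hx => exact Submodule.smul_mem _ c (hx trivial)
  | succ n ih =>
    refine le_trans (b := Mp k G n * Ag k G) ?_ (Submodule.mul_le.2 fun x hx y hy =>
      sp_mul hJ (fun a => m1 _) (fun _ _ _ _ _ => trivial) (ih hx) (a1 hy))
    rw [Mp, pow_succ]
    refine mul_le_mul_left ?_ _
    cases n
    exacts [le_top, le_rfl]

lemma jc_open {p : ℕ} [Fact p.Prime] {s : Finset G}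
    (hs : Dense (Subgroup.closure (s : Set G) : Set G)) (n : ℕ) :
    IsOpen (Dm (jc_fl (k := ZMod p)) (of (ZMod p) G) n : Set G) := by
  let S := fun n => Submodule.span (ZMod p)
    (ev (fun a : s => of (ZMod p) G a - 1) '' {w | w.length < n})
  have a : ∀ (N : Subgroup G), N.Normal → IsOpen (N : Set G) → ∀ n,
      ⊤ ≤ S n ⊔ (Mp (ZMod p) G n ⊔ Kn (ZMod p) N) := fun N hN ho n => by
    induction n with
    | zero => exact le_sup_of_le_right le_sup_left
    | succ n ih =>
      refine ih.trans (sup_le (le_sup_of_le_left (Submodule.span_mono (Set.image_mono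
        fun w (h : _ < _) => h.trans (Nat.lt_succ_self n)))) ((jn_span hs N hN ho n).trans
        (sup_le_sup_right (Submodule.span_mono (Set.image_mono fun w h => ?_)) _)))
      exact h.1.trans_lt (Nat.lt_succ_self n)
  have : FiniteDimensional (ZMod p) (S n) :=
    FiniteDimensional.span_of_finite _ ((List.finite_length_lt _ n).image _)
  obtain ⟨N, -, hN⟩ := (wellFounded_lt.onFun
    (f := fun N : {N : Subgroup G // N.Normal ∧ IsOpen (N : Set G)} =>
      Module.finrank (ZMod p) ↥(S n ⊓ (Mp (ZMod p) G n ⊔ Kn (ZMod p) N)))).has_min Set.univ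
    ⟨⟨⊤, inferInstance, isOpen_univ⟩, trivial⟩
  refine Subgroup.isOpen_mono (fun g hg => (Submodule.mem_iInf _).2 fun N' => ?_) N.2.2
  have m : ∀ {N N' : Subgroup G}, N ≤ N' →
      Mp (ZMod p) G n ⊔ Kn (ZMod p) N ≤ Mp (ZMod p) G n ⊔ Kn (ZMod p) N' := fun h =>
    sup_le_sup_left (Submodule.span_mono (by
      rintro _ ⟨g, g', h1, rfl⟩; exact ⟨g, g', h h1, rfl⟩)) _
  have := N.2.1
  have := N'.2.1
  have e := Submodule.eq_of_le_of_finrank_le (inf_le_inf_left (S n) (m (inf_le_left (b := N'.1))))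
    (not_lt.1 (hN ⟨N ⊓ N', inferInstance, N.2.2.inter N'.2.2⟩ trivial))
  obtain ⟨x, h1, y, h2, h3⟩ := Submodule.mem_sup.1
    (a (N ⊓ N') inferInstance (N.2.2.inter N'.2.2) n (Submodule.mem_top (x := of (ZMod p) G g - 1)))
  have h4 : of (ZMod p) G g - 1 ∈ Mp (ZMod p) G n ⊔ Kn (ZMod p) N := Submodule.mem_sup_right
    (Submodule.subset_span ⟨g, 1, by simpa using hg, by rw [map_one]⟩)
  rw [← h3] at h4 ⊢
  have h5 : x ∈ S n ⊓ (Mp (ZMod p) G n ⊔ Kn (ZMod p) N) :=
    ⟨h1, by simpa using sub_mem h4 (m inf_le_left h2)⟩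
  exact m inf_le_right (add_mem (e ▸ h5).2 h2)

lemma count [CompactSpace G] {s : Finset G} (hs : Dense (Subgroup.closure (s : Set G) : Set G))
    (N : Subgroup G) (hN : N.Normal) (ho : IsOpen (N : Set G)) (n : ℕ) :
    Module.finrank k ↥(Ag k (G ⧸ N) ^ (n + 1)) ≤
      cnt (Nor (Jc k G) fun a : s => of k G a - 1) (n + 1) +
      Module.finrank k ↥(Ag k (G ⧸ N) ^ (n + 1 + 1)) := by
  classical
  have := N.quotient_finite_of_isOpen ho
  let π := mapDomainAlgHom k k (QuotientGroup.mk' N)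
  have e : ∀ g, π (of k G g) = of k _ (g : G ⧸ N) := fun g => by simp [π]
  have a1 : (Ag k G).map π.toLinearMap = Ag k (G ⧸ N) := by
    rw [Submodule.map_span, ← Set.range_comp]
    congr 1
    rw [← (QuotientGroup.mk_surjective (s := N)).range_comp]
    congr 1 with g : 1
    exact (map_sub π (of k G g) 1).trans (by rw [e, map_one]; rfl)
  have a2 : (Mp k G (n + 1 + 1) ⊔ Kn k N).map π.toLinearMap ≤ Ag k (G ⧸ N) ^ (n + 1 + 1) := by
    rw [Submodule.map_sup, Mp, Submodule.map_pow, a1]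
    refine sup_le le_rfl (Submodule.map_le_iff_le_comap.2 (Submodule.span_le.2 ?_))
    rintro _ ⟨g, g', h, rfl⟩
    simp [-of_apply, e, QuotientGroup.eq.2 h]
  set T := (words s (n + 1)).filter (· ∈ Nor (Jc k G) fun a : s => of k G a - 1) with hT
  have a3 : Ag k (G ⧸ N) ^ (n + 1) ≤ Submodule.span k
      (T.image fun w => π (ev (fun a : s => of k G a - 1) w) : Set _) ⊔
      Ag k (G ⧸ N) ^ (n + 1 + 1) := by
    conv_lhs => rw [← a1, ← Submodule.map_pow]
    have b1 := nor_span (J := Jc k G) (y := fun a : s => of k G a - 1) (n + 1)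
    have b2 := jn_span (k := k) hs N hN ho (n + 1)
    have b3 : Jc k G (n + 1 + 1) ≤ Mp k G (n + 1 + 1) ⊔ Kn k N := iInf_le _ (⟨N, hN, ho⟩ :
      {N : Subgroup G // N.Normal ∧ IsOpen (N : Set G)})
    simp only [Sp] at b1 b2
    have b4 := (le_sup_left.trans b2).trans
      (sup_le (le_sup_left.trans (b1.trans (sup_le_sup_left b3 _))) le_sup_right)
    refine (Submodule.map_mono b4).trans ?_
    rw [Submodule.map_sup, Submodule.map_span]
    refine sup_le_sup (Submodule.span_mono ?_) a2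
    rintro _ ⟨_, ⟨w, hw, rfl⟩, rfl⟩
    exact mem_coe.2 (mem_image_of_mem _ (mem_filter.2 ⟨mem_words.2 hw.1, hw.2⟩))
  refine (Submodule.finrank_mono a3).trans ((Submodule.finrank_add_le_finrank_add_finrank _ _).trans
    (Nat.add_le_add_right ((finrank_span_finset_le_card _).trans card_image_le) _))

end Pool.Agent.H.MP_43f46b_al
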