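import Mathlib

set_option autoImplicit false

namespace Pool.Agent.H.MP_43f46b_al

open Finset

variable {α : Type} [Fintype α]

/-- the base -/
noncomputable def bs (α : Type) [Fintype α] : ℝ := ((Fintype.card α + 2 : ℕ) : ℝ)

/-- value of a word as an expansion in base `bs α` -/
noncomputable def psi : List α → ℝ
  | [] => 0
  | a :: w => (((Fintype.equivFin α a : ℕ) : ℝ) + psi w) / bs α

lemma bs1 : (1 : ℝ) < bs α := by
  unfold bs; push_cast; linarith [Nat.cast_nonneg (α := ℝ) (Fintype.card α)]

lemma bs0 : (0 : ℝ) < bs α := zero_lt_one.trans bs1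

lemma psi0 (w : List α) : 0 ≤ psi w := by
  induction w with
  | nil => exact le_rfl
  | cons a w ih => exact div_nonneg (add_nonneg (Nat.cast_nonneg _) ih) bs0.le

lemma psi1 (w : List α) : psi w < 1 := by
  induction w with
  | nil => exact zero_lt_one
  | cons a w ih =>
    refine (div_lt_one bs0).2 ?_
    have : ((Fintype.equivFin α a : ℕ) : ℝ) < Fintype.card α := by
      exact_mod_cast (Fintype.equivFin α a).2
    unfold bs; push_cast; linarith

lemma psi_app (u v : List α) : psi (u ++ v) = psi u + psi v / bs α ^ u.length := by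
  induction u with
  | nil => simp [psi]
  | cons a u ih =>
    simp only [List.cons_append, psi, ih, List.length_cons, pow_succ]
    have := bs0 (α := α)
    field_simp
    ring

lemma psi_le (u v : List α) : psi u ≤ psi (u ++ v) := by
  rw [psi_app]; exact le_add_of_nonneg_right (div_nonneg (psi0 v) (pow_pos bs0 _).le)

lemma gap : ∀ (u v : List α), u.length = v.length → psi u < psi v → ∀ x y : List α,
    psi (u ++ x) < psi (v ++ y)
  | [], [], _, h, _, _ => absurd h (lt_irrefl _)
  | a :: u, b :: v, hl, h, x, y => by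
    simp only [List.cons_append, psi] at h ⊢
    rw [div_lt_div_iff_of_pos_right bs0] at h ⊢
    rcases lt_trichotomy (Fintype.equivFin α a : ℕ) (Fintype.equivFin α b) with c | c | c
    · have : ((Fintype.equivFin α a : ℕ) : ℝ) + 1 ≤ (Fintype.equivFin α b : ℕ) := by
        exact_mod_cast c
      linarith [psi1 (u ++ x), psi0 (v ++ y)]
    · rw [c] at h ⊢
      have := gap u v (by simpa using hl) (by linarith) x y
      linarith
    · have : ((Fintype.equivFin α b : ℕ) : ℝ) + 1 ≤ (Fintype.equivFin α a : ℕ) := by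
        exact_mod_cast c
      linarith [psi1 v, psi0 u]

lemma psi_inj : ∀ (u v : List α), u.length = v.length → psi u = psi v → u = v
  | [], [], _, _ => rfl
  | a :: u, b :: v, hl, h => by
    simp only [psi] at h
    rw [div_left_inj' bs0.ne'] at h
    rcases lt_trichotomy (Fintype.equivFin α a : ℕ) (Fintype.equivFin α b) with c | c | c
    · have : ((Fintype.equivFin α a : ℕ) : ℝ) + 1 ≤ (Fintype.equivFin α b : ℕ) := by
        exact_mod_cast c
      linarith [psi1 u, psi0 v]
    · rw [c] at h
      rw [psi_inj u v (by simpa using hl) (by linarith),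
        (Fintype.equivFin α).injective (Fin.ext c)]
    · have : ((Fintype.equivFin α b : ℕ) : ℝ) + 1 ≤ (Fintype.equivFin α a : ℕ) := by
        exact_mod_cast c
      linarith [psi1 v, psi0 u]

/-- denominator -/
noncomputable def den (w : List α) : ℝ := 1 - 1 / bs α ^ w.length

lemma den_pos {w : List α} (h : w ≠ []) : 0 < den w :=
  sub_pos.2 ((div_lt_one (pow_pos bs0 _)).2 (one_lt_pow₀ bs1 (by simpa using h)))

lemma den_app (u v : List α) : den (u ++ v) = den u + den v / bs α ^ u.length := by
  have := bs0 (α := α)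
  simp only [den, List.length_append, pow_add]; field_simp; ring

/-- value of the periodic word -/
noncomputable def th (w : List α) : ℝ := psi w / den w

lemma th_lt {u v : List α} (hu : u ≠ []) (hv : v ≠ []) :
    th u < th v ↔ psi (u ++ v) < psi (v ++ u) := by
  rw [th, th, div_lt_div_iff₀ (den_pos hu) (den_pos hv), psi_app, psi_app, den, den]
  constructor <;> intro h <;> simp only [div_eq_mul_inv] at h ⊢ <;> linarith

lemma flat_le (c : ℝ) (L : List (List α)) (h : ∀ l ∈ L, l ≠ [] ∧ c ≤ th l) :
    c * den L.flatten ≤ psi L.flatten := by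
  induction L with
  | nil => simp [den, psi]
  | cons l L ih =>
    rw [List.flatten_cons, den_app, psi_app, mul_add, ← mul_div_assoc]
    have h1 := h l List.mem_cons_self
    exact add_le_add ((le_div_iff₀ (den_pos h1.1)).1 h1.2) (div_le_div_of_nonneg_right
      (ih fun l' h' => h l' (List.mem_cons_of_mem _ h')) (pow_pos bs0 _).le)

lemma flat_lt (c : ℝ) (L : List (List α)) (hL : L ≠ []) (h : ∀ l ∈ L, l ≠ [] ∧ c < th l) :
    L.flatten ≠ [] ∧ c < th L.flatten := by
  obtain ⟨l, L, rfl⟩ := List.exists_cons_of_ne_nil hL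
  have h1 := h l List.mem_cons_self
  have h2 : (l :: L).flatten ≠ [] := by simp [h1.1]
  refine ⟨h2, (lt_div_iff₀ (den_pos h2)).2 ?_⟩
  rw [List.flatten_cons, den_app, psi_app, mul_add, ← mul_div_assoc]
  exact add_lt_add_of_lt_of_le ((lt_div_iff₀ (den_pos h1.1)).1 h1.2) (div_le_div_of_nonneg_right
    (flat_le c L fun l' h' => ⟨(h l' (List.mem_cons_of_mem _ h')).1,
      (h l' (List.mem_cons_of_mem _ h')).2.le⟩) (pow_pos bs0 _).le)

theorem lyndon (P : List α → Prop) (h1 : ∀ a, P [a])
    (h2 : ∀ u v, u ≠ [] → v ≠ [] → P u → P v → th u < th v → P (u ++ v)) (v : List α)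
    (hv : v ≠ []) (hs : ∀ u s, v = u ++ s → u ≠ [] → s ≠ [] → psi v < psi s) : P v := by
  have a1 : ∀ L : List (List α), L.Pairwise (fun x y => th y ≤ th x) →
      (∀ l ∈ L, l ≠ [] ∧ P l) → ∀ c, c ≠ [] → P c → ∃ L' : List (List α),
      L'.Pairwise (fun x y => th y ≤ th x) ∧ (∀ l ∈ L', l ≠ [] ∧ P l) ∧
      L'.flatten = c ++ L.flatten := by
    intro L
    induction L with
    | nil => intro _ _ c hc hp; exact ⟨[c], by simp, by simp [hc, hp], by simp⟩
    | cons l L ih =>
      intro hp hl c hc hP
      have hl1 := hl l List.mem_cons_self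
      rcases le_or_gt (th l) (th c) with k | k
      · refine ⟨c :: l :: L, List.pairwise_cons.2 ⟨fun x hx => ?_, hp⟩, fun x hx => ?_, by simp⟩
        · rcases List.mem_cons.1 hx with rfl | hx
          · exact k
          · exact ((List.pairwise_cons.1 hp).1 x hx).trans k
        · rcases List.mem_cons.1 hx with rfl | hx
          · exact ⟨hc, hP⟩
          · exact hl x hx
      · obtain ⟨L', q1, q2, q3⟩ := ih (List.pairwise_cons.1 hp).2
          (fun x hx => hl x (List.mem_cons_of_mem _ hx)) (c ++ l) (by simp [hc])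
          (h2 c l hc hl1.1 hP hl1.2 k)
        exact ⟨L', q1, q2, by simp [q3]⟩
  have a2 : ∀ w : List α, ∃ L' : List (List α),
      L'.Pairwise (fun x y => th y ≤ th x) ∧ (∀ l ∈ L', l ≠ [] ∧ P l) ∧ L'.flatten = w := by
    intro w
    induction w with
    | nil => exact ⟨[], by simp, by simp, rfl⟩
    | cons a w ih =>
      obtain ⟨L, q1, q2, q3⟩ := ih
      simpa [q3] using a1 L q1 q2 [a] (by simp) (h1 a)
  obtain ⟨L, q1, q2, q3⟩ := a2 v
  rcases List.eq_nil_or_concat L with rfl | ⟨L, s, rfl⟩
  · exact absurd q3.symm hv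
  rw [List.concat_eq_append] at q1 q2 q3
  have hs1 := q2 s (by simp)
  by_cases hL : L.flatten = []
  · rw [← q3]; simpa [hL] using hs1.2
  exfalso
  have e : v = L.flatten ++ s := by simp [← q3]
  have k1 := hs _ _ e hL hs1.1
  have k2 : th s ≤ th L.flatten := (le_div_iff₀ (den_pos hL)).2 (flat_le _ L fun l hl =>
    ⟨(q2 l (by simp [hl])).1, (List.pairwise_append.1 q1).2.2 l hl s (by simp)⟩)
  have k3 := (th_lt hL hs1.1).not.1 (not_lt.2 k2)
  exact k3 (e ▸ k1.trans_le (psi_le _ _))

theorem sorted {ι : Type} (z : ι → List α) (hz : ∀ i, z i ≠ []) (l : List ι)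
    (hl : l.Pairwise fun i j => th (z i) < th (z j)) (l' : List ι) (hp : l'.Perm l) :
    l' = l ∨ psi (l.map z).flatten < psi (l'.map z).flatten := by
  induction l generalizing l' with
  | nil => exact Or.inl hp.eq_nil
  | cons i l ih =>
    obtain ⟨A, B, rfl⟩ := List.append_of_mem (hp.symm.subset List.mem_cons_self)
    have hp' : (A ++ B).Perm l := (List.perm_middle.symm.trans hp).cons_inv
    have k := ih (List.pairwise_cons.1 hl).2 _ hp'
    have m : ∀ x y : List α, psi x < psi y → psi (z i ++ x) < psi (z i ++ y) := fun x y h => by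
      rw [psi_app, psi_app]
      exact add_lt_add_right (div_lt_div_of_pos_right h (pow_pos bs0 _)) _
    by_cases hA : A = []
    · subst hA
      rcases k with k | k
      · left; simpa using k
      · right; simpa using m _ _ k
    right
    have k1 : psi (z i ++ (l.map z).flatten) ≤ psi (z i ++ ((A ++ B).map z).flatten) := by
      rcases k with k | k
      · rw [k]
      · exact (m _ _ k).le
    have k2 := flat_lt (th (z i)) (A.map z) (by simpa using hA) fun x hx => by
      obtain ⟨j, hj, rfl⟩ := List.mem_map.1 hx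
      exact ⟨hz j, (List.pairwise_cons.1 hl).1 j (hp'.subset (by simp [hj]))⟩
    have k3 := gap _ _ (by simp [add_comm]) ((th_lt (hz i) k2.1).1 k2.2) (B.map z).flatten
      (B.map z).flatten
    simp only [List.map_cons, List.flatten_cons, List.map_append, List.flatten_append,
      List.append_assoc] at k1 k3 ⊢
    exact k1.trans_lt k3

theorem wsum {β : Type} [Fintype β] (w : β → ℝ) (h0 : ∀ b, 0 ≤ w b) (h1 : ∑ b, w b ≤ 1 / 2)
    (S : Finset (List β)) : ∑ u ∈ S, (u.map w).prod ≤ 2 := by
  classical
  have p0 : ∀ u : List β, 0 ≤ (u.map w).prod := fun u =>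
    List.prod_nonneg fun x hx => by obtain ⟨b, -, rfl⟩ := List.mem_map.1 hx; exact h0 b
  have a : ∀ L : ℕ, ∃ T : Finset (List β), (∀ u : List β, u.length ≤ L → u ∈ T) ∧
      ∑ u ∈ T, (u.map w).prod ≤ 2 := by
    intro L
    induction L with
    | zero => exact ⟨{[]}, fun u hu => by simpa using hu, by simp⟩
    | succ L ih =>
      obtain ⟨T, t1, t2⟩ := ih
      refine ⟨insert [] ((univ ×ˢ T).image fun p : β × List β => p.1 :: p.2), fun u hu => ?_, ?_⟩
      · rcases u with _ | ⟨a, u⟩
        · simp
        · simpa using t1 u (by simpa using hu)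
      · rw [sum_insert (by simp), sum_image (fun x _ y _ h => Prod.ext (List.cons.inj h).1
          (List.cons.inj h).2), sum_product]
        simp only [List.map_cons, List.prod_cons, ← mul_sum, ← sum_mul, List.map_nil,
          List.prod_nil]
        nlinarith [sum_nonneg fun u (_ : u ∈ T) => p0 u, sum_nonneg fun b (_ : b ∈ univ) => h0 b]
  obtain ⟨T, t1, t2⟩ := a (S.sup List.length)
  exact (sum_le_sum_of_subset_of_nonneg (fun u hu => t1 u (le_sup (f := List.length) hu))
    fun u _ _ => p0 u).trans t2

end Pool.Agent.H.MP_43f46b_al
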